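import Pool.Agent.Zk45.SQ.D2

set_option autoImplicit false
set_option maxRecDepth 100000

namespace Pool.Agent.Zk45.SQ

theorem rc2_0 : rowsOK 31 T1 P2 ([] : List ℕ) sp2_0 rw2_0 = true := by decide +kernel
theorem tc2_0 : tgOK 31 21 rw2 (ps2 0) (Rt2 0) (Cs2 0) = true := by decide +kernel
theorem tc2_1 : tgOK 31 21 rw2 (ps2 1) (Rt2 1) (Cs2 1) = true := by decide +kernel
theorem tc2_2 : tgOK 31 21 rw2 (ps2 2) (Rt2 2) (Cs2 2) = true := by decide +kernel
theorem tc2_3 : tgOK 31 21 rw2 (ps2 3) (Rt2 3) (Cs2 3) = true := by decide +kernel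
theorem tc2_4 : tgOK 31 21 rw2 (ps2 4) (Rt2 4) (Cs2 4) = true := by decide +kernel
theorem zc2_0 : zOK 31 21 rw2 z2_0 cz2_0 = true := by decide +kernel
theorem pc2_0 : chkPos W2 0 N1 (ps2 0) = true := by decide +kernel
theorem pc2_1 : chkPos W2 1 N1 (ps2 1) = true := by decide +kernel
theorem pc2_2 : chkPos W2 2 N1 (ps2 2) = true := by decide +kernel
theorem pc2_3 : chkPos W2 3 N1 (ps2 3) = true := by decide +kernel
theorem pc2_4 : chkPos W2 4 N1 (ps2 4) = true := by decide +kernel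
theorem len2 : W2.length = 31 := by decide +kernel
theorem nlen2 : NN2.length = 21 := by decide +kernel
theorem rlen2 : rw2.length = 10 := by decide +kernel
theorem lt2 : lt8 (8 ^ 2) N2 = true := by decide +kernel

end Pool.Agent.Zk45.SQ
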