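import Pool.Agent.Zk45.SQ.D3

set_option autoImplicit false
set_option maxRecDepth 100000

namespace Pool.Agent.Zk45.SQ

theorem rc3_0 : rowsOK 96 T2 P3 z2 sp3_0 rw3_0 = true := by decide +kernel
theorem tc3_0 : tgOK 96 56 rw3 (ps3 0) (Rt3 0) (Cs3 0) = true := by decide +kernel
theorem tc3_1 : tgOK 96 56 rw3 (ps3 1) (Rt3 1) (Cs3 1) = true := by decide +kernel
theorem tc3_2 : tgOK 96 56 rw3 (ps3 2) (Rt3 2) (Cs3 2) = true := by decide +kernel
theorem tc3_3 : tgOK 96 56 rw3 (ps3 3) (Rt3 3) (Cs3 3) = true := by decide +kernel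
theorem tc3_4 : tgOK 96 56 rw3 (ps3 4) (Rt3 4) (Cs3 4) = true := by decide +kernel
theorem zc3_0 : zOK 96 56 rw3 z3_0 cz3_0 = true := by decide +kernel
theorem pc3_0 : chkPos W3 0 N2 (ps3 0) = true := by decide +kernel
theorem pc3_1 : chkPos W3 1 N2 (ps3 1) = true := by decide +kernel
theorem pc3_2 : chkPos W3 2 N2 (ps3 2) = true := by decide +kernel
theorem pc3_3 : chkPos W3 3 N2 (ps3 3) = true := by decide +kernel
theorem pc3_4 : chkPos W3 4 N2 (ps3 4) = true := by decide +kernel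
theorem len3 : W3.length = 96 := by decide +kernel
theorem nlen3 : NN3.length = 56 := by decide +kernel
theorem rlen3 : rw3.length = 40 := by decide +kernel
theorem lt3 : lt8 (8 ^ 3) N3 = true := by decide +kernel

end Pool.Agent.Zk45.SQ
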