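import Pool.Agent.Zk45.SQ.D4

set_option autoImplicit false
set_option maxRecDepth 100000

namespace Pool.Agent.Zk45.SQ

theorem rc4_0 : rowsOK 231 T3 P4 z3 sp4_0 rw4_0 = true := by decide +kernel
theorem rc4_1 : rowsOK 231 T3 P4 z3 sp4_1 rw4_1 = true := by decide +kernel
theorem tc4_0 : tgOK 231 121 rw4 (ps4 0) (Rt4 0) (Cs4 0) = true := by decide +kernel
theorem tc4_1 : tgOK 231 121 rw4 (ps4 1) (Rt4 1) (Cs4 1) = true := by decide +kernel
theorem tc4_2 : tgOK 231 121 rw4 (ps4 2) (Rt4 2) (Cs4 2) = true := by decide +kernel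
theorem tc4_3 : tgOK 231 121 rw4 (ps4 3) (Rt4 3) (Cs4 3) = true := by decide +kernel
theorem tc4_4 : tgOK 231 121 rw4 (ps4 4) (Rt4 4) (Cs4 4) = true := by decide +kernel
theorem zc4_0 : zOK 231 121 rw4 z4_0 cz4_0 = true := by decide +kernel
theorem pc4_0 : chkPos W4 0 N3 (ps4 0) = true := by decide +kernel
theorem pc4_1 : chkPos W4 1 N3 (ps4 1) = true := by decide +kernel
theorem pc4_2 : chkPos W4 2 N3 (ps4 2) = true := by decide +kernel
theorem pc4_3 : chkPos W4 3 N3 (ps4 3) = true := by decide +kernel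
theorem pc4_4 : chkPos W4 4 N3 (ps4 4) = true := by decide +kernel
theorem len4 : W4.length = 231 := by decide +kernel
theorem nlen4 : NN4.length = 121 := by decide +kernel
theorem rlen4 : rw4.length = 110 := by decide +kernel
theorem lt4 : lt8 (8 ^ 4) N4 = true := by decide +kernel

end Pool.Agent.Zk45.SQ
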