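import Pool.Agent.Zk45.SQ.D5

set_option autoImplicit false
set_option maxRecDepth 100000

namespace Pool.Agent.Zk45.SQ

theorem rc5_0 : rowsOK 446 T4 P5 z4 sp5_0 rw5_0 = true := by decide +kernel
theorem rc5_1 : rowsOK 446 T4 P5 z4 sp5_1 rw5_1 = true := by decide +kernel
theorem rc5_2 : rowsOK 446 T4 P5 z4 sp5_2 rw5_2 = true := by decide +kernel
theorem rc5_3 : rowsOK 446 T4 P5 z4 sp5_3 rw5_3 = true := by decide +kernel

end Pool.Agent.Zk45.SQ
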