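import Pool.Agent.Zk45.SQ.D5

set_option autoImplicit false
set_option maxRecDepth 100000

namespace Pool.Agent.Zk45.SQ

theorem tc5_0 : tgOK 446 207 rw5 (ps5 0) (Rt5 0) (Cs5 0) = true := by decide +kernel
theorem tc5_1 : tgOK 446 207 rw5 (ps5 1) (Rt5 1) (Cs5 1) = true := by decide +kernel
theorem tc5_2 : tgOK 446 207 rw5 (ps5 2) (Rt5 2) (Cs5 2) = true := by decide +kernel
theorem tc5_3 : tgOK 446 207 rw5 (ps5 3) (Rt5 3) (Cs5 3) = true := by decide +kernel
theorem tc5_4 : tgOK 446 207 rw5 (ps5 4) (Rt5 4) (Cs5 4) = true := by decide +kernel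

end Pool.Agent.Zk45.SQ
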