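import Pool.Agent.Zk45.SQ.D5

set_option autoImplicit false
set_option maxRecDepth 100000

namespace Pool.Agent.Zk45.SQ

theorem zc5_0 : zOK 446 207 rw5 z5_0 cz5_0 = true := by decide +kernel
theorem pc5_0 : chkPos W5 0 N4 (ps5 0) = true := by decide +kernel
theorem pc5_1 : chkPos W5 1 N4 (ps5 1) = true := by decide +kernel
theorem pc5_2 : chkPos W5 2 N4 (ps5 2) = true := by decide +kernel
theorem pc5_3 : chkPos W5 3 N4 (ps5 3) = true := by decide +kernel
theorem pc5_4 : chkPos W5 4 N4 (ps5 4) = true := by decide +kernel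
theorem len5 : W5.length = 446 := by decide +kernel
theorem nlen5 : NN5.length = 207 := by decide +kernel
theorem rlen5 : rw5.length = 240 := by decide +kernel
theorem lt5 : lt8 (8 ^ 5) N5 = true := by decide +kernel

end Pool.Agent.Zk45.SQ
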