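import Pool.Agent.Zk45.SQ.D6

set_option autoImplicit false
set_option maxRecDepth 100000

namespace Pool.Agent.Zk45.SQ

theorem rc6_0 : rowsOK 637 T5 P6 z5 sp6_0 rw6_0 = true := by decide +kernel
theorem rc6_1 : rowsOK 637 T5 P6 z5 sp6_1 rw6_1 = true := by decide +kernel
theorem rc6_2 : rowsOK 637 T5 P6 z5 sp6_2 rw6_2 = true := by decide +kernel
theorem rc6_3 : rowsOK 637 T5 P6 z5 sp6_3 rw6_3 = true := by decide +kernel
theorem rc6_4 : rowsOK 637 T5 P6 z5 sp6_4 rw6_4 = true := by decide +kernel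
theorem rc6_5 : rowsOK 637 T5 P6 z5 sp6_5 rw6_5 = true := by decide +kernel
theorem rc6_6 : rowsOK 637 T5 P6 z5 sp6_6 rw6_6 = true := by decide +kernel

end Pool.Agent.Zk45.SQ
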