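import Pool.Agent.Zk45.SQ.D6

set_option autoImplicit false
set_option maxRecDepth 100000

namespace Pool.Agent.Zk45.SQ

theorem tc6_0 : tgOK 637 238 rw6 (ps6 0) (Rt6 0) (Cs6 0) = true := by decide +kernel
theorem tc6_1 : tgOK 637 238 rw6 (ps6 1) (Rt6 1) (Cs6 1) = true := by decide +kernel
theorem tc6_2 : tgOK 637 238 rw6 (ps6 2) (Rt6 2) (Cs6 2) = true := by decide +kernel
theorem tc6_3 : tgOK 637 238 rw6 (ps6 3) (Rt6 3) (Cs6 3) = true := by decide +kernel
theorem tc6_4 : tgOK 637 238 rw6 (ps6 4) (Rt6 4) (Cs6 4) = true := by decide +kernel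

end Pool.Agent.Zk45.SQ
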