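import Pool.Agent.Zk45.SQ.D6

set_option autoImplicit false
set_option maxRecDepth 100000

namespace Pool.Agent.Zk45.SQ

theorem zc6_0 : zOK 637 238 rw6 z6_0 cz6_0 = true := by decide +kernel
theorem pc6_0 : chkPos W6 0 N5 (ps6 0) = true := by decide +kernel
theorem pc6_1 : chkPos W6 1 N5 (ps6 1) = true := by decide +kernel
theorem pc6_2 : chkPos W6 2 N5 (ps6 2) = true := by decide +kernel
theorem pc6_3 : chkPos W6 3 N5 (ps6 3) = true := by decide +kernel
theorem pc6_4 : chkPos W6 4 N5 (ps6 4) = true := by decide +kernel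
theorem len6 : W6.length = 637 := by decide +kernel
theorem nlen6 : NN6.length = 238 := by decide +kernel
theorem rlen6 : rw6.length = 416 := by decide +kernel
theorem lt6 : lt8 (8 ^ 6) N6 = true := by decide +kernel

end Pool.Agent.Zk45.SQ
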