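import Pool.Agent.Zk45.SQ.D7

set_option autoImplicit false
set_option maxRecDepth 100000

namespace Pool.Agent.Zk45.SQ

theorem rc7_0 : rowsOK 393 T6 P7 z6 sp7_0 rw7_0 = true := by decide +kernel
theorem rc7_1 : rowsOK 393 T6 P7 z6 sp7_1 rw7_1 = true := by decide +kernel
theorem rc7_2 : rowsOK 393 T6 P7 z6 sp7_2 rw7_2 = true := by decide +kernel
theorem rc7_3 : rowsOK 393 T6 P7 z6 sp7_3 rw7_3 = true := by decide +kernel
theorem rc7_4 : rowsOK 393 T6 P7 z6 sp7_4 rw7_4 = true := by decide +kernel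
theorem rc7_5 : rowsOK 393 T6 P7 z6 sp7_5 rw7_5 = true := by decide +kernel
theorem rc7_6 : rowsOK 393 T6 P7 z6 sp7_6 rw7_6 = true := by decide +kernel

end Pool.Agent.Zk45.SQ
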