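import Pool.Agent.Zk45.SQ.D7

set_option autoImplicit false
set_option maxRecDepth 100000

namespace Pool.Agent.Zk45.SQ

theorem tc7_0 : tgOK 393 238 rw7 (ps7 0) (Rt7 0) (Cs7 0) = true := by decide +kernel
theorem tc7_1 : tgOK 393 238 rw7 (ps7 1) (Rt7 1) (Cs7 1) = true := by decide +kernel
theorem tc7_2 : tgOK 393 238 rw7 (ps7 2) (Rt7 2) (Cs7 2) = true := by decide +kernel
theorem tc7_3 : tgOK 393 238 rw7 (ps7 3) (Rt7 3) (Cs7 3) = true := by decide +kernel
theorem tc7_4 : tgOK 393 238 rw7 (ps7 4) (Rt7 4) (Cs7 4) = true := by decide +kernel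

end Pool.Agent.Zk45.SQ
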