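import Pool.Agent.Zk45.SQ.D7

set_option autoImplicit false
set_option maxRecDepth 100000

namespace Pool.Agent.Zk45.SQ

theorem zc7_0 : zOK 393 238 rw7 z7_0 cz7_0 = true := by decide +kernel
theorem zc7_1 : zOK 393 238 rw7 z7_1 cz7_1 = true := by decide +kernel
theorem zc7_2 : zOK 393 238 rw7 z7_2 cz7_2 = true := by decide +kernel
theorem zc7_3 : zOK 393 238 rw7 z7_3 cz7_3 = true := by decide +kernel
theorem pc7_0 : chkPos W7 0 N6 (ps7 0) = true := by decide +kernel
theorem pc7_1 : chkPos W7 1 N6 (ps7 1) = true := by decide +kernel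
theorem pc7_2 : chkPos W7 2 N6 (ps7 2) = true := by decide +kernel
theorem pc7_3 : chkPos W7 3 N6 (ps7 3) = true := by decide +kernel
theorem pc7_4 : chkPos W7 4 N6 (ps7 4) = true := by decide +kernel
theorem len7 : W7.length = 393 := by decide +kernel
theorem nlen7 : NN7.length = 238 := by decide +kernel
theorem rlen7 : rw7.length = 392 := by decide +kernel
theorem lt7 : lt8 (8 ^ 7) N7 = true := by decide +kernel

end Pool.Agent.Zk45.SQ
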