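import Mathlib

/-!
# Packed linear algebra over `ZMod 3` for functionals on words
-/

set_option autoImplicit false

namespace Pool.Agent.Zk45.SQ

abbrev K3 := ZMod 3

/-- the word with code `c` -/
def wd (c : ℕ) : List (Fin 5) := ((Nat.digits 8 c).map (fun d => Fin.ofNat 5 (d - 1))).reverse

theorem wd_zero : wd 0 = [] := by simp [wd]

theorem wd_snoc (c : ℕ) (b : Fin 5) : wd (8 * c + (b.val + 1)) = wd c ++ [b] := by
  unfold wd
  have h := Nat.digits_add 8 (by norm_num) (b.val + 1) c (by omega) (Or.inl (by omega))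
  rw [show 8 * c + (b.val + 1) = (b.val + 1) + 8 * c by ring, h]
  simp only [List.map_cons, List.reverse_cons, Nat.add_sub_cancel]
  congr 1
  simp [Fin.ofNat, Fin.ext_iff]

theorem wd_length {c m : ℕ} (h : c < 8 ^ m) : (wd c).length ≤ m := by
  unfold wd
  simp only [List.length_reverse, List.length_map]
  exact (Nat.digits_length_le_iff (by norm_num) c).2 h

def ev : List ℕ → ℕ → (ℕ → K3) → K3
  | [], _, _ => 0
  | w :: ws, v, g => ((v % 65536 : ℕ) : K3) * g w + ev ws (v / 65536) g

def Bd (m : ℕ) : ℕ → ℕ → Prop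
  | 0, v => v = 0
  | n + 1, v => v % 65536 ≤ m ∧ Bd m n (v / 65536)

theorem Bd.zero (m n : ℕ) : Bd m n 0 := by
  induction n with
  | zero => rfl
  | succ n ih => exact ⟨by simp, by simpa using ih⟩

theorem Bd.mono {m m' : ℕ} (h : m ≤ m') : ∀ {n v : ℕ}, Bd m n v → Bd m' n v
  | 0, _, hv => hv
  | _ + 1, _, hv => ⟨hv.1.trans h, Bd.mono h hv.2⟩

theorem Bd.succ {m : ℕ} : ∀ {n v : ℕ}, Bd m n v → Bd m (n + 1) v
  | 0, v, hv => by
      have : v = 0 := hv
      subst this
      exact Bd.zero _ _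
  | _ + 1, _, hv => ⟨hv.1, Bd.succ hv.2⟩

theorem Bd.mono_len {m n : ℕ} {v : ℕ} (h : Bd m n v) : ∀ k, Bd m (n + k) v
  | 0 => h
  | k + 1 => (Bd.mono_len h k).succ

theorem split_add {u v : ℕ} (h : u % 65536 + v % 65536 < 65536) :
    (u + v) % 65536 = u % 65536 + v % 65536 ∧ (u + v) / 65536 = u / 65536 + v / 65536 := by
  omega

theorem Bd.add {m m' : ℕ} (h : m + m' < 65536) : ∀ {n u v : ℕ}, Bd m n u → Bd m' n v →
    Bd (m + m') n (u + v)
  | 0, u, v, hu, hv => by
      have h1 : u = 0 := hu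
      have h2 : v = 0 := hv
      subst h1; subst h2; rfl
  | n + 1, u, v, hu, hv => by
      have hs := split_add (u := u) (v := v) (by have := hu.1; have := hv.1; omega)
      refine ⟨by rw [hs.1]; have := hu.1; have := hv.1; omega, ?_⟩
      rw [hs.2]
      exact Bd.add h hu.2 hv.2

theorem ev_add {m m' : ℕ} (h : m + m' < 65536) (g : ℕ → K3) : ∀ {W : List ℕ} {u v : ℕ},
    Bd m W.length u → Bd m' W.length v → ev W (u + v) g = ev W u g + ev W v g
  | [], _, _, _, _ => by simp [ev]
  | w :: ws, u, v, hu, hv => by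
      have hu' : u % 65536 ≤ m ∧ Bd m ws.length (u / 65536) := hu
      have hv' : v % 65536 ≤ m' ∧ Bd m' ws.length (v / 65536) := hv
      have hs := split_add (u := u) (v := v) (by have := hu'.1; have := hv'.1; omega)
      simp only [ev]
      rw [hs.1, hs.2, ev_add h g hu'.2 hv'.2]
      push_cast
      ring

theorem split_mul {c v : ℕ} (h : c * (v % 65536) < 65536) :
    (c * v) % 65536 = c * (v % 65536) ∧ (c * v) / 65536 = c * (v / 65536) := by
  have h1 : c * v = c * (v % 65536) + 65536 * (c * (v / 65536)) := by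
    conv_lhs => rw [← Nat.mod_add_div v 65536]
    ring
  constructor
  · rw [h1, Nat.add_mul_mod_self_left, Nat.mod_eq_of_lt h]
  · rw [h1, Nat.add_mul_div_left _ _ (by norm_num), Nat.div_eq_of_lt h, zero_add]

theorem Bd.mul {m c : ℕ} (h : c * m < 65536) : ∀ {n v : ℕ}, Bd m n v → Bd (c * m) n (c * v)
  | 0, v, hv => by
      have h1 : v = 0 := hv
      subst h1; exact Nat.mul_zero c
  | n + 1, v, hv => by
      have hle : c * (v % 65536) ≤ c * m := Nat.mul_le_mul_left c hv.1
      have hs := split_mul (c := c) (v := v) (by omega)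
      refine ⟨by rw [hs.1]; exact hle, ?_⟩
      rw [hs.2]
      exact Bd.mul h hv.2

theorem ev_mul {m c : ℕ} (h : c * m < 65536) (g : ℕ → K3) : ∀ {W : List ℕ} {v : ℕ},
    Bd m W.length v → ev W (c * v) g = (c : K3) * ev W v g
  | [], _, _ => by simp [ev]
  | w :: ws, v, hv => by
      have hv' : v % 65536 ≤ m ∧ Bd m ws.length (v / 65536) := hv
      have hle : c * (v % 65536) ≤ c * m := Nat.mul_le_mul_left c hv'.1
      have hs := split_mul (c := c) (v := v) (by omega)
      simp only [ev]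
      rw [hs.1, hs.2, ev_mul h g hv'.2]
      push_cast
      ring

theorem ev_zero (g : ℕ → K3) : ∀ W : List ℕ, ev W 0 g = 0
  | [] => rfl
  | w :: ws => by simp [ev, ev_zero g ws]

theorem ev_append {m : ℕ} (g : ℕ → K3) (G : List ℕ) : ∀ {N : List ℕ} {v : ℕ},
    Bd m N.length v → ev (N ++ G) v g = ev N v g
  | [], v, hv => by
      have h1 : v = 0 := hv
      subst h1
      simp [ev, ev_zero]
  | w :: ws, v, hv => by
      have hv' : v % 65536 ≤ m ∧ Bd m ws.length (v / 65536) := hv
      simp only [List.cons_append, ev]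
      rw [ev_append g G hv'.2]

theorem ev_vanish (g : ℕ → K3) : ∀ {W : List ℕ} (v : ℕ), (∀ w ∈ W, g w = 0) → ev W v g = 0
  | [], _, _ => rfl
  | w :: ws, v, h => by
      simp only [ev]
      rw [h w (by simp), ev_vanish g (v / 65536) (fun w' h' => h w' (by simp [h'])), mul_zero, add_zero]

/-- entry of a list -/
def gt : List ℕ → ℕ → ℕ
  | [], _ => 0
  | a :: _, 0 => a
  | _ :: l, n + 1 => gt l n

theorem unit_ok (g : ℕ → K3) : ∀ {W : List ℕ} {p : ℕ}, gt W p ≠ 0 →
    Bd 1 W.length (65536 ^ p) ∧ ev W (65536 ^ p) g = g (gt W p)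
  | [], p, h => by simp [gt] at h
  | w :: ws, 0, _ => by
      refine ⟨⟨by norm_num, by simpa using Bd.zero _ _⟩, ?_⟩
      simp [ev, gt, ev_zero]
  | w :: ws, p + 1, h => by
      have ih := unit_ok g (W := ws) (p := p) (by simpa [gt] using h)
      have h1 : (65536 : ℕ) ^ (p + 1) % 65536 = 0 := by
        rw [pow_succ]; simp
      have h2 : (65536 : ℕ) ^ (p + 1) / 65536 = 65536 ^ p := by
        rw [pow_succ]; exact Nat.mul_div_cancel _ (by norm_num)
      refine ⟨⟨by rw [h1]; norm_num, by rw [h2]; exact ih.1⟩, ?_⟩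
      simp only [ev]
      rw [h1, h2, ih.2]
      simp [gt]

/-- masks -/
def msk (M : ℕ) : ℕ → ℕ
  | 0 => 0
  | n + 1 => M + 65536 * msk M n

theorem and_split (a b : ℕ) : (a &&& b) % 65536 = (a % 65536) &&& (b % 65536) ∧
    (a &&& b) / 65536 = (a / 65536) &&& (b / 65536) := by
  constructor
  · have := Nat.and_mod_two_pow (a := a) (b := b) (n := 16)
    simpa using this
  · have := Nat.and_div_two_pow (a := a) (b := b) (n := 16)
    simpa using this

theorem mask_digit {k d : ℕ} (hk : k ≤ 16) (hd : d < 65536) (h : d &&& (65536 - 2 ^ k) = 0) :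
    d < 2 ^ k := by
  have h1 := Nat.and_div_two_pow (a := d) (b := 65536 - 2 ^ k) (n := k)
  rw [h, Nat.zero_div] at h1
  have h2 : (65536 - 2 ^ k) / 2 ^ k = 2 ^ (16 - k) - 1 := by
    have : (65536 : ℕ) = 2 ^ (16 - k) * 2 ^ k := by
      rw [← pow_add, Nat.sub_add_cancel hk]; norm_num
    rw [this]
    have h3 : 2 ^ (16 - k) * 2 ^ k - 2 ^ k = (2 ^ (16 - k) - 1) * 2 ^ k := by
      rw [Nat.sub_mul, one_mul]
    rw [h3]
    exact Nat.mul_div_cancel _ (by positivity)
  rw [h2, Nat.and_two_pow_sub_one_eq_mod] at h1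
  have h3 : d / 2 ^ k < 2 ^ (16 - k) := by
    rw [Nat.div_lt_iff_lt_mul (by positivity), ← pow_add, Nat.sub_add_cancel hk]
    norm_num
    exact hd
  rw [Nat.mod_eq_of_lt h3] at h1
  have := (Nat.div_eq_zero_iff (a := d) (b := 2 ^ k)).1 h1.symm
  rcases this with h4 | h4
  · exact absurd h4 (by positivity)
  · exact h4

theorem bd_of_mask {k : ℕ} (hk : k ≤ 16) : ∀ {n v : ℕ}, v &&& msk (65536 - 2 ^ k) n = 0 →
    v < 65536 ^ n → Bd (2 ^ k - 1) n v
  | 0, v, _, h => by
      have : v = 0 := by simpa using h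
      exact this
  | n + 1, v, h, hlt => by
      have hM : 65536 - 2 ^ k < 65536 := by
        have : 0 < 2 ^ k := by positivity
        omega
      have hs := and_split v (msk (65536 - 2 ^ k) (n + 1))
      rw [h] at hs
      have h1 : msk (65536 - 2 ^ k) (n + 1) % 65536 = 65536 - 2 ^ k := by
        simp only [msk]
        rw [Nat.add_mul_mod_self_left, Nat.mod_eq_of_lt hM]
      have h2 : msk (65536 - 2 ^ k) (n + 1) / 65536 = msk (65536 - 2 ^ k) n := by
        simp only [msk]
        rw [Nat.add_mul_div_left _ _ (by norm_num), Nat.div_eq_of_lt hM, zero_add]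
      rw [h1, h2] at hs
      refine ⟨?_, bd_of_mask hk (by simpa using hs.2.symm) ?_⟩
      · have := mask_digit (k := k) hk (Nat.mod_lt v (by norm_num)) (by simpa using hs.1.symm)
        omega
      · rw [Nat.div_lt_iff_lt_mul (by norm_num), ← pow_succ]
        exact hlt

/-- sum of the entries with coefficients the digits of `v` in base `b` -/
def comb (b : ℕ) : ℕ → List ℕ → ℕ
  | _, [] => 0
  | v, r :: rs => (v % b) * r + comb b (v / b) rs

theorem comb_mul (g G : ℕ → K3) {W : List ℕ} {c : ℕ} : ∀ {N Rs : List ℕ},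
    List.Forall₂ (fun e r => Bd 3 W.length r ∧ G e = ev W r g) N Rs → ∀ {v : ℕ},
    Bd c N.length v → c * 3 * N.length < 65536 →
    Bd (c * 3 * N.length) W.length (comb 65536 v Rs) ∧ ev W (comb 65536 v Rs) g = ev N v G
  | _, _, List.Forall₂.nil, v, _, _ => by
      exact ⟨Bd.zero _ _, by simp [comb, ev, ev_zero]⟩
  | _, _, List.Forall₂.cons (a := e) (b := r) (l₁ := N) (l₂ := Rs) h hF, v, hv, hc => by
      have hv' : v % 65536 ≤ c ∧ Bd c N.length (v / 65536) := hv
      have hc' : c * 3 * (N.length + 1) < 65536 := by simpa using hc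
      have e1 : c * 3 * (N.length + 1) = c * 3 + c * 3 * N.length := by ring
      have ih := comb_mul g G hF (v := v / 65536) hv'.2 (by omega)
      have hb : (v % 65536) * 3 ≤ c * 3 := Nat.mul_le_mul_right 3 hv'.1
      have hm : Bd (c * 3) W.length ((v % 65536) * r) := (Bd.mul (by omega) h.1).mono hb
      have hadd := Bd.add (m := c * 3) (m' := c * 3 * N.length) (by omega) hm ih.1
      refine ⟨?_, ?_⟩
      · show Bd (c * 3 * (N.length + 1)) W.length _
        rw [e1]
        exact hadd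
      · simp only [comb, ev]
        rw [ev_add (m := c * 3) (m' := c * 3 * N.length) (by omega) g hm ih.1, ih.2,
          ev_mul (by omega) g h.1, h.2]

theorem comb_lin (g : ℕ → K3) {W : List ℕ} : ∀ {Rs : List ℕ},
    (∀ r ∈ Rs, Bd 3 W.length r ∧ ev W r g = 0) → ∀ v : ℕ, 9 * Rs.length < 65536 →
    Bd (9 * Rs.length) W.length (comb 4 v Rs) ∧ ev W (comb 4 v Rs) g = 0
  | [], _, v, _ => ⟨Bd.zero _ _, by simp [comb, ev_zero]⟩
  | r :: Rs, h, v, hc => by
      have hc' : 9 * (Rs.length + 1) < 65536 := by simpa using hc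
      have ih := comb_lin g (Rs := Rs) (fun r' h' => h r' (by simp [h'])) (v / 4) (by omega)
      have hr := h r (by simp)
      have h4 : v % 4 ≤ 3 := by omega
      have hm : Bd 9 W.length ((v % 4) * r) := (Bd.mul (by omega) hr.1).mono (by omega)
      have hadd := Bd.add (m := 9) (m' := 9 * Rs.length) (by omega) hm ih.1
      refine ⟨?_, ?_⟩
      · show Bd (9 * (Rs.length + 1)) W.length _
        rw [show 9 * (Rs.length + 1) = 9 + 9 * Rs.length by ring]
        exact hadd
      · simp only [comb]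
        rw [ev_add (m := 9) (m' := 9 * Rs.length) (by omega) g hm ih.1, ih.2,
          ev_mul (by omega) g hr.1, hr.2]
        simp

theorem mod3 (g : ℕ → K3) {W : List ℕ} {A R T Q a : ℕ} (hA : Bd a W.length A)
    (hR : Bd 3 W.length R) (hT : Bd 3 W.length T) (hQ : Bd 16383 W.length Q) (ha : a + 3 < 65536)
    (h : A + R = T + 3 * Q) : ev W A g + ev W R g = ev W T g := by
  have h3 : ((3 : ℕ) : K3) = 0 := by decide
  have hQ' := Bd.mul (c := 3) (m := 16383) (by norm_num) hQ
  rw [← ev_add (m := a) (m' := 3) ha g hA hR, h,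
    ev_add (m := 3) (m' := 3 * 16383) (by norm_num) g hT hQ',
    ev_mul (c := 3) (m := 16383) (by norm_num) g hQ, h3, zero_mul, add_zero]

end Pool.Agent.Zk45.SQ
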