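import Pool.Agent.Zk45.SQ.Step

set_option autoImplicit false
set_option maxRecDepth 100000

namespace Pool.Agent.Zk45.SQ

noncomputable def NN0 : List ℕ := [nat_lit 0]
noncomputable def N1 : List ℕ := [nat_lit 1,
  nat_lit 2,
  nat_lit 3,
  nat_lit 4,
  nat_lit 5]
noncomputable def NN1 : List ℕ := NN0 ++ N1
noncomputable def N2 : List ℕ := [nat_lit 10,
  nat_lit 11,
  nat_lit 12,
  nat_lit 13,
  nat_lit 17,
  nat_lit 19,
  nat_lit 20,
  nat_lit 21,
  nat_lit 25,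
  nat_lit 26,
  nat_lit 28,
  nat_lit 29,
  nat_lit 34,
  nat_lit 35,
  nat_lit 37]
noncomputable def X2 : List ℕ := [nat_lit 9,
  nat_lit 18,
  nat_lit 27,
  nat_lit 33,
  nat_lit 36,
  nat_lit 41,
  nat_lit 42,
  nat_lit 43,
  nat_lit 44,
  nat_lit 45]
noncomputable def NN2 : List ℕ := NN1 ++ N2
noncomputable def W2 : List ℕ := NN1 ++ (N2 ++ X2)
noncomputable def N3 : List ℕ := [nat_lit 81,
  nat_lit 83,
  nat_lit 84,
  nat_lit 85,
  nat_lit 89,
  nat_lit 90,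
  nat_lit 92,
  nat_lit 93,
  nat_lit 98,
  nat_lit 99,
  nat_lit 101,
  nat_lit 138,
  nat_lit 139,
  nat_lit 140,
  nat_lit 141,
  nat_lit 153,
  nat_lit 154,
  nat_lit 156,
  nat_lit 157,
  nat_lit 162,
  nat_lit 163,
  nat_lit 165,
  nat_lit 202,
  nat_lit 203,
  nat_lit 204,
  nat_lit 205,
  nat_lit 211,
  nat_lit 212,
  nat_lit 213,
  nat_lit 226,
  nat_lit 227,
  nat_lit 229,
  nat_lit 273,
  nat_lit 275,
  nat_lit 276]
noncomputable def X3 : List ℕ := [nat_lit 82,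
  nat_lit 91,
  nat_lit 97,
  nat_lit 100,
  nat_lit 105,
  nat_lit 106,
  nat_lit 107,
  nat_lit 108,
  nat_lit 109,
  nat_lit 137,
  nat_lit 155,
  nat_lit 161,
  nat_lit 164,
  nat_lit 169,
  nat_lit 170,
  nat_lit 171,
  nat_lit 172,
  nat_lit 173,
  nat_lit 201,
  nat_lit 209,
  nat_lit 210,
  nat_lit 225,
  nat_lit 228,
  nat_lit 233,
  nat_lit 234,
  nat_lit 235,
  nat_lit 236,
  nat_lit 237,
  nat_lit 274,
  nat_lit 277,
  nat_lit 281,
  nat_lit 282,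
  nat_lit 283,
  nat_lit 284,
  nat_lit 285,
  nat_lit 297,
  nat_lit 298,
  nat_lit 299,
  nat_lit 300,
  nat_lit 301]
noncomputable def NN3 : List ℕ := NN2 ++ N3
noncomputable def W3 : List ℕ := NN2 ++ (N3 ++ X3)
noncomputable def N4 : List ℕ := [nat_lit 650,
  nat_lit 651,
  nat_lit 652,
  nat_lit 653,
  nat_lit 665,
  nat_lit 666,
  nat_lit 668,
  nat_lit 669,
  nat_lit 674,
  nat_lit 675,
  nat_lit 677,
  nat_lit 714,
  nat_lit 715,
  nat_lit 716,
  nat_lit 717,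
  nat_lit 723,
  nat_lit 724,
  nat_lit 725,
  nat_lit 738,
  nat_lit 739,
  nat_lit 741,
  nat_lit 785,
  nat_lit 787,
  nat_lit 788,
  nat_lit 1105,
  nat_lit 1107,
  nat_lit 1108,
  nat_lit 1109,
  nat_lit 1113,
  nat_lit 1114,
  nat_lit 1116,
  nat_lit 1117,
  nat_lit 1122,
  nat_lit 1123,
  nat_lit 1125,
  nat_lit 1226,
  nat_lit 1227,
  nat_lit 1228,
  nat_lit 1229,
  nat_lit 1235,
  nat_lit 1236,
  nat_lit 1237,
  nat_lit 1250,
  nat_lit 1251,
  nat_lit 1253,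
  nat_lit 1297,
  nat_lit 1299,
  nat_lit 1300,
  nat_lit 1617,
  nat_lit 1619,
  nat_lit 1620,
  nat_lit 1621,
  nat_lit 1625,
  nat_lit 1626,
  nat_lit 1629,
  nat_lit 1634,
  nat_lit 1635,
  nat_lit 1637,
  nat_lit 1689,
  nat_lit 1690,
  nat_lit 1692,
  nat_lit 1693,
  nat_lit 1701,
  nat_lit 1809,
  nat_lit 1812]
noncomputable def X4 : List ℕ := [nat_lit 649,
  nat_lit 667,
  nat_lit 673,
  nat_lit 676,
  nat_lit 681,
  nat_lit 682,
  nat_lit 683,
  nat_lit 684,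
  nat_lit 685,
  nat_lit 713,
  nat_lit 721,
  nat_lit 722,
  nat_lit 737,
  nat_lit 740,
  nat_lit 745,
  nat_lit 746,
  nat_lit 747,
  nat_lit 748,
  nat_lit 749,
  nat_lit 786,
  nat_lit 789,
  nat_lit 793,
  nat_lit 794,
  nat_lit 795,
  nat_lit 796,
  nat_lit 797,
  nat_lit 809,
  nat_lit 810,
  nat_lit 811,
  nat_lit 812,
  nat_lit 813,
  nat_lit 1106,
  nat_lit 1115,
  nat_lit 1121,
  nat_lit 1124,
  nat_lit 1129,
  nat_lit 1130,
  nat_lit 1131,
  nat_lit 1132,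
  nat_lit 1133,
  nat_lit 1225,
  nat_lit 1233,
  nat_lit 1234,
  nat_lit 1249,
  nat_lit 1252,
  nat_lit 1257,
  nat_lit 1258,
  nat_lit 1259,
  nat_lit 1260,
  nat_lit 1261,
  nat_lit 1298,
  nat_lit 1301,
  nat_lit 1305,
  nat_lit 1306,
  nat_lit 1307,
  nat_lit 1308,
  nat_lit 1309,
  nat_lit 1321,
  nat_lit 1322,
  nat_lit 1323,
  nat_lit 1324,
  nat_lit 1325,
  nat_lit 1618,
  nat_lit 1627,
  nat_lit 1628,
  nat_lit 1633,
  nat_lit 1636,
  nat_lit 1641,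
  nat_lit 1642,
  nat_lit 1643,
  nat_lit 1644,
  nat_lit 1645,
  nat_lit 1691,
  nat_lit 1697,
  nat_lit 1698,
  nat_lit 1699,
  nat_lit 1700,
  nat_lit 1705,
  nat_lit 1706,
  nat_lit 1707,
  nat_lit 1708,
  nat_lit 1709,
  nat_lit 1810,
  nat_lit 1811,
  nat_lit 1813,
  nat_lit 1817,
  nat_lit 1818,
  nat_lit 1819,
  nat_lit 1820,
  nat_lit 1821,
  nat_lit 1833,
  nat_lit 1834,
  nat_lit 1835,
  nat_lit 1836,
  nat_lit 1837,
  nat_lit 2185,
  nat_lit 2186,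
  nat_lit 2187,
  nat_lit 2188,
  nat_lit 2189,
  nat_lit 2201,
  nat_lit 2202,
  nat_lit 2203,
  nat_lit 2204,
  nat_lit 2205,
  nat_lit 2209,
  nat_lit 2210,
  nat_lit 2211,
  nat_lit 2212,
  nat_lit 2213]
noncomputable def NN4 : List ℕ := NN3 ++ N4
noncomputable def W4 : List ℕ := NN3 ++ (N4 ++ X4)
noncomputable def N5 : List ℕ := [nat_lit 5201,
  nat_lit 5203,
  nat_lit 5204,
  nat_lit 5205,
  nat_lit 5209,
  nat_lit 5210,
  nat_lit 5212,
  nat_lit 5213,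
  nat_lit 5218,
  nat_lit 5219,
  nat_lit 5221,
  nat_lit 5322,
  nat_lit 5323,
  nat_lit 5324,
  nat_lit 5325,
  nat_lit 5331,
  nat_lit 5332,
  nat_lit 5333,
  nat_lit 5346,
  nat_lit 5347,
  nat_lit 5349,
  nat_lit 5393,
  nat_lit 5395,
  nat_lit 5396,
  nat_lit 5713,
  nat_lit 5715,
  nat_lit 5716,
  nat_lit 5717,
  nat_lit 5721,
  nat_lit 5722,
  nat_lit 5725,
  nat_lit 5730,
  nat_lit 5731,
  nat_lit 5733,
  nat_lit 5785,
  nat_lit 5786,
  nat_lit 5788,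
  nat_lit 5789,
  nat_lit 5797,
  nat_lit 5905,
  nat_lit 5908,
  nat_lit 8842,
  nat_lit 8843,
  nat_lit 8844,
  nat_lit 8845,
  nat_lit 8857,
  nat_lit 8858,
  nat_lit 8860,
  nat_lit 8861,
  nat_lit 8866,
  nat_lit 8867,
  nat_lit 8869,
  nat_lit 8906,
  nat_lit 8907,
  nat_lit 8908,
  nat_lit 8909,
  nat_lit 8915,
  nat_lit 8916,
  nat_lit 8917,
  nat_lit 8930,
  nat_lit 8931,
  nat_lit 8933,
  nat_lit 8977,
  nat_lit 8979,
  nat_lit 8980,
  nat_lit 9809,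
  nat_lit 9811,
  nat_lit 9812,
  nat_lit 9813,
  nat_lit 9817,
  nat_lit 9818,
  nat_lit 9821,
  nat_lit 9826,
  nat_lit 9827,
  nat_lit 9829,
  nat_lit 9881,
  nat_lit 9882,
  nat_lit 9884,
  nat_lit 9885,
  nat_lit 9893,
  nat_lit 10001,
  nat_lit 10004,
  nat_lit 12939,
  nat_lit 12941,
  nat_lit 12953,
  nat_lit 13003]
noncomputable def X5 : List ℕ := [nat_lit 5202,
  nat_lit 5211,
  nat_lit 5217,
  nat_lit 5220,
  nat_lit 5225,
  nat_lit 5226,
  nat_lit 5227,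
  nat_lit 5228,
  nat_lit 5229,
  nat_lit 5321,
  nat_lit 5329,
  nat_lit 5330,
  nat_lit 5345,
  nat_lit 5348,
  nat_lit 5353,
  nat_lit 5354,
  nat_lit 5355,
  nat_lit 5356,
  nat_lit 5357,
  nat_lit 5394,
  nat_lit 5397,
  nat_lit 5401,
  nat_lit 5402,
  nat_lit 5403,
  nat_lit 5404,
  nat_lit 5405,
  nat_lit 5417,
  nat_lit 5418,
  nat_lit 5419,
  nat_lit 5420,
  nat_lit 5421,
  nat_lit 5714,
  nat_lit 5723,
  nat_lit 5724,
  nat_lit 5729,
  nat_lit 5732,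
  nat_lit 5737,
  nat_lit 5738,
  nat_lit 5739,
  nat_lit 5740,
  nat_lit 5741,
  nat_lit 5787,
  nat_lit 5793,
  nat_lit 5794,
  nat_lit 5795,
  nat_lit 5796,
  nat_lit 5801,
  nat_lit 5802,
  nat_lit 5803,
  nat_lit 5804,
  nat_lit 5805,
  nat_lit 5906,
  nat_lit 5907,
  nat_lit 5909,
  nat_lit 5913,
  nat_lit 5914,
  nat_lit 5915,
  nat_lit 5916,
  nat_lit 5917,
  nat_lit 5929,
  nat_lit 5930,
  nat_lit 5931,
  nat_lit 5932,
  nat_lit 5933,
  nat_lit 6281,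
  nat_lit 6282,
  nat_lit 6283,
  nat_lit 6284,
  nat_lit 6285,
  nat_lit 6297,
  nat_lit 6298,
  nat_lit 6299,
  nat_lit 6300,
  nat_lit 6301,
  nat_lit 6305,
  nat_lit 6306,
  nat_lit 6307,
  nat_lit 6308,
  nat_lit 6309,
  nat_lit 8841,
  nat_lit 8859,
  nat_lit 8865,
  nat_lit 8868,
  nat_lit 8873,
  nat_lit 8874,
  nat_lit 8875,
  nat_lit 8876,
  nat_lit 8877,
  nat_lit 8905,
  nat_lit 8913,
  nat_lit 8914,
  nat_lit 8929,
  nat_lit 8932,
  nat_lit 8937,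
  nat_lit 8938,
  nat_lit 8939,
  nat_lit 8940,
  nat_lit 8941,
  nat_lit 8978,
  nat_lit 8981,
  nat_lit 8985,
  nat_lit 8986,
  nat_lit 8987,
  nat_lit 8988,
  nat_lit 8989,
  nat_lit 9001,
  nat_lit 9002,
  nat_lit 9003,
  nat_lit 9004,
  nat_lit 9005,
  nat_lit 9810,
  nat_lit 9819,
  nat_lit 9820,
  nat_lit 9825,
  nat_lit 9828,
  nat_lit 9833,
  nat_lit 9834,
  nat_lit 9835,
  nat_lit 9836,
  nat_lit 9837,
  nat_lit 9883,
  nat_lit 9889,
  nat_lit 9890,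
  nat_lit 9891,
  nat_lit 9892,
  nat_lit 9897,
  nat_lit 9898,
  nat_lit 9899,
  nat_lit 9900,
  nat_lit 9901,
  nat_lit 10002,
  nat_lit 10003,
  nat_lit 10005,
  nat_lit 10009,
  nat_lit 10010,
  nat_lit 10011,
  nat_lit 10012,
  nat_lit 10013,
  nat_lit 10025,
  nat_lit 10026,
  nat_lit 10027,
  nat_lit 10028,
  nat_lit 10029,
  nat_lit 10377,
  nat_lit 10378,
  nat_lit 10379,
  nat_lit 10380,
  nat_lit 10381,
  nat_lit 10393,
  nat_lit 10394,
  nat_lit 10395,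
  nat_lit 10396,
  nat_lit 10397,
  nat_lit 10401,
  nat_lit 10402,
  nat_lit 10403,
  nat_lit 10404,
  nat_lit 10405,
  nat_lit 12937,
  nat_lit 12938,
  nat_lit 12940,
  nat_lit 12954,
  nat_lit 12955,
  nat_lit 12956,
  nat_lit 12957,
  nat_lit 12961,
  nat_lit 12962,
  nat_lit 12963,
  nat_lit 12964,
  nat_lit 12965,
  nat_lit 12969,
  nat_lit 12970,
  nat_lit 12971,
  nat_lit 12972,
  nat_lit 12973,
  nat_lit 13001,
  nat_lit 13002,
  nat_lit 13004,
  nat_lit 13005,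
  nat_lit 13009,
  nat_lit 13010,
  nat_lit 13011,
  nat_lit 13012,
  nat_lit 13013,
  nat_lit 13033,
  nat_lit 13034,
  nat_lit 13035,
  nat_lit 13036,
  nat_lit 13037,
  nat_lit 13073,
  nat_lit 13074,
  nat_lit 13075,
  nat_lit 13076,
  nat_lit 13077,
  nat_lit 13081,
  nat_lit 13082,
  nat_lit 13083,
  nat_lit 13084,
  nat_lit 13085,
  nat_lit 13097,
  nat_lit 13098,
  nat_lit 13099,
  nat_lit 13100,
  nat_lit 13101,
  nat_lit 13513,
  nat_lit 13514,
  nat_lit 13515,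
  nat_lit 13516,
  nat_lit 13517,
  nat_lit 13521,
  nat_lit 13522,
  nat_lit 13523,
  nat_lit 13524,
  nat_lit 13525,
  nat_lit 13537,
  nat_lit 13538,
  nat_lit 13539,
  nat_lit 13540,
  nat_lit 13541,
  nat_lit 13545,
  nat_lit 13546,
  nat_lit 13547,
  nat_lit 13548,
  nat_lit 13549,
  nat_lit 13609,
  nat_lit 13610,
  nat_lit 13611,
  nat_lit 13612,
  nat_lit 13613,
  nat_lit 14473,
  nat_lit 14474,
  nat_lit 14475,
  nat_lit 14476,
  nat_lit 14477,
  nat_lit 14497,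
  nat_lit 14498,
  nat_lit 14499,
  nat_lit 14500,
  nat_lit 14501]
noncomputable def NN5 : List ℕ := NN4 ++ N5
noncomputable def W5 : List ℕ := NN4 ++ (N5 ++ X5)
noncomputable def N6 : List ℕ := [nat_lit 41610,
  nat_lit 41611,
  nat_lit 41612,
  nat_lit 41613,
  nat_lit 41625,
  nat_lit 41626,
  nat_lit 41628,
  nat_lit 41629,
  nat_lit 41634,
  nat_lit 41635,
  nat_lit 41637,
  nat_lit 41674,
  nat_lit 41675,
  nat_lit 41676,
  nat_lit 41677,
  nat_lit 41683,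
  nat_lit 41684,
  nat_lit 41685,
  nat_lit 41698,
  nat_lit 41699,
  nat_lit 41701,
  nat_lit 41745,
  nat_lit 41747,
  nat_lit 41748,
  nat_lit 42579,
  nat_lit 42580,
  nat_lit 42581,
  nat_lit 42585,
  nat_lit 42586,
  nat_lit 42589,
  nat_lit 42594]
noncomputable def X6 : List ℕ := [nat_lit 41609,
  nat_lit 41627,
  nat_lit 41633,
  nat_lit 41636,
  nat_lit 41641,
  nat_lit 41642,
  nat_lit 41643,
  nat_lit 41644,
  nat_lit 41645,
  nat_lit 41673,
  nat_lit 41681,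
  nat_lit 41682,
  nat_lit 41697,
  nat_lit 41700,
  nat_lit 41705,
  nat_lit 41706,
  nat_lit 41707,
  nat_lit 41708,
  nat_lit 41709,
  nat_lit 41746,
  nat_lit 41749,
  nat_lit 41753,
  nat_lit 41754,
  nat_lit 41755,
  nat_lit 41756,
  nat_lit 41757,
  nat_lit 41769,
  nat_lit 41770,
  nat_lit 41771,
  nat_lit 41772,
  nat_lit 41773,
  nat_lit 42577,
  nat_lit 42578,
  nat_lit 42587,
  nat_lit 42588,
  nat_lit 42593,
  nat_lit 42595,
  nat_lit 42596,
  nat_lit 42597,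
  nat_lit 42601,
  nat_lit 42602,
  nat_lit 42603,
  nat_lit 42604,
  nat_lit 42605,
  nat_lit 42649,
  nat_lit 42650,
  nat_lit 42651,
  nat_lit 42652,
  nat_lit 42653,
  nat_lit 42657,
  nat_lit 42658,
  nat_lit 42659,
  nat_lit 42660,
  nat_lit 42661,
  nat_lit 42665,
  nat_lit 42666,
  nat_lit 42667,
  nat_lit 42668,
  nat_lit 42669,
  nat_lit 42769,
  nat_lit 42770,
  nat_lit 42771,
  nat_lit 42772,
  nat_lit 42773,
  nat_lit 42777,
  nat_lit 42778,
  nat_lit 42779,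
  nat_lit 42780,
  nat_lit 42781,
  nat_lit 42793,
  nat_lit 42794,
  nat_lit 42795,
  nat_lit 42796,
  nat_lit 42797,
  nat_lit 43145,
  nat_lit 43146,
  nat_lit 43147,
  nat_lit 43148,
  nat_lit 43149,
  nat_lit 43161,
  nat_lit 43162,
  nat_lit 43163,
  nat_lit 43164,
  nat_lit 43165,
  nat_lit 43169,
  nat_lit 43170,
  nat_lit 43171,
  nat_lit 43172,
  nat_lit 43173,
  nat_lit 45705,
  nat_lit 45706,
  nat_lit 45707,
  nat_lit 45708,
  nat_lit 45709,
  nat_lit 45721,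
  nat_lit 45722,
  nat_lit 45723,
  nat_lit 45724,
  nat_lit 45725,
  nat_lit 45729,
  nat_lit 45730,
  nat_lit 45731,
  nat_lit 45732,
  nat_lit 45733,
  nat_lit 45737,
  nat_lit 45738,
  nat_lit 45739,
  nat_lit 45740,
  nat_lit 45741,
  nat_lit 45769,
  nat_lit 45770,
  nat_lit 45771,
  nat_lit 45772,
  nat_lit 45773,
  nat_lit 45777,
  nat_lit 45778,
  nat_lit 45779,
  nat_lit 45780,
  nat_lit 45781,
  nat_lit 45801,
  nat_lit 45802,
  nat_lit 45803,
  nat_lit 45804,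
  nat_lit 45805,
  nat_lit 45841,
  nat_lit 45842,
  nat_lit 45843,
  nat_lit 45844,
  nat_lit 45845,
  nat_lit 45849,
  nat_lit 45850,
  nat_lit 45851,
  nat_lit 45852,
  nat_lit 45853,
  nat_lit 45865,
  nat_lit 45866,
  nat_lit 45867,
  nat_lit 45868,
  nat_lit 45869,
  nat_lit 46281,
  nat_lit 46282,
  nat_lit 46283,
  nat_lit 46284,
  nat_lit 46285,
  nat_lit 46289,
  nat_lit 46290,
  nat_lit 46291,
  nat_lit 46292,
  nat_lit 46293,
  nat_lit 46305,
  nat_lit 46306,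
  nat_lit 46307,
  nat_lit 46308,
  nat_lit 46309,
  nat_lit 46313,
  nat_lit 46314,
  nat_lit 46315,
  nat_lit 46316,
  nat_lit 46317,
  nat_lit 46377,
  nat_lit 46378,
  nat_lit 46379,
  nat_lit 46380,
  nat_lit 46381,
  nat_lit 47241,
  nat_lit 47242,
  nat_lit 47243,
  nat_lit 47244,
  nat_lit 47245,
  nat_lit 47265,
  nat_lit 47266,
  nat_lit 47267,
  nat_lit 47268,
  nat_lit 47269,
  nat_lit 70737,
  nat_lit 70738,
  nat_lit 70739,
  nat_lit 70740,
  nat_lit 70741,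
  nat_lit 70745,
  nat_lit 70746,
  nat_lit 70747,
  nat_lit 70748,
  nat_lit 70749,
  nat_lit 70753,
  nat_lit 70754,
  nat_lit 70755,
  nat_lit 70756,
  nat_lit 70757,
  nat_lit 70761,
  nat_lit 70762,
  nat_lit 70763,
  nat_lit 70764,
  nat_lit 70765,
  nat_lit 70857,
  nat_lit 70858,
  nat_lit 70859,
  nat_lit 70860,
  nat_lit 70861,
  nat_lit 70865,
  nat_lit 70866,
  nat_lit 70867,
  nat_lit 70868,
  nat_lit 70869,
  nat_lit 70881,
  nat_lit 70882,
  nat_lit 70883,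
  nat_lit 70884,
  nat_lit 70885,
  nat_lit 70889,
  nat_lit 70890,
  nat_lit 70891,
  nat_lit 70892,
  nat_lit 70893,
  nat_lit 70929,
  nat_lit 70930,
  nat_lit 70931,
  nat_lit 70932,
  nat_lit 70933,
  nat_lit 70937,
  nat_lit 70938,
  nat_lit 70939,
  nat_lit 70940,
  nat_lit 70941,
  nat_lit 70953,
  nat_lit 70954,
  nat_lit 70955,
  nat_lit 70956,
  nat_lit 70957,
  nat_lit 71249,
  nat_lit 71250,
  nat_lit 71251,
  nat_lit 71252,
  nat_lit 71253,
  nat_lit 71257,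
  nat_lit 71258,
  nat_lit 71259,
  nat_lit 71260,
  nat_lit 71261,
  nat_lit 71265,
  nat_lit 71266,
  nat_lit 71267,
  nat_lit 71268,
  nat_lit 71269,
  nat_lit 71273,
  nat_lit 71274,
  nat_lit 71275,
  nat_lit 71276,
  nat_lit 71277,
  nat_lit 71321,
  nat_lit 71322,
  nat_lit 71323,
  nat_lit 71324,
  nat_lit 71325,
  nat_lit 71329,
  nat_lit 71330,
  nat_lit 71331,
  nat_lit 71332,
  nat_lit 71333,
  nat_lit 71337,
  nat_lit 71338,
  nat_lit 71339,
  nat_lit 71340,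
  nat_lit 71341,
  nat_lit 71441,
  nat_lit 71442,
  nat_lit 71443,
  nat_lit 71444,
  nat_lit 71445,
  nat_lit 71449,
  nat_lit 71450,
  nat_lit 71451,
  nat_lit 71452,
  nat_lit 71453,
  nat_lit 71465,
  nat_lit 71466,
  nat_lit 71467,
  nat_lit 71468,
  nat_lit 71469,
  nat_lit 71817,
  nat_lit 71818,
  nat_lit 71819,
  nat_lit 71820,
  nat_lit 71821,
  nat_lit 71833,
  nat_lit 71834,
  nat_lit 71835,
  nat_lit 71836,
  nat_lit 71837,
  nat_lit 71841,
  nat_lit 71842,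
  nat_lit 71843,
  nat_lit 71844,
  nat_lit 71845,
  nat_lit 78473,
  nat_lit 78474,
  nat_lit 78475,
  nat_lit 78476,
  nat_lit 78477,
  nat_lit 78489,
  nat_lit 78490,
  nat_lit 78491,
  nat_lit 78492,
  nat_lit 78493,
  nat_lit 78497,
  nat_lit 78498,
  nat_lit 78499,
  nat_lit 78500,
  nat_lit 78501,
  nat_lit 78505,
  nat_lit 78506,
  nat_lit 78507,
  nat_lit 78508,
  nat_lit 78509,
  nat_lit 78537,
  nat_lit 78538,
  nat_lit 78539,
  nat_lit 78540,
  nat_lit 78541,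
  nat_lit 78545,
  nat_lit 78546,
  nat_lit 78547,
  nat_lit 78548,
  nat_lit 78549,
  nat_lit 78569,
  nat_lit 78570,
  nat_lit 78571,
  nat_lit 78572,
  nat_lit 78573,
  nat_lit 78609,
  nat_lit 78610,
  nat_lit 78611,
  nat_lit 78612,
  nat_lit 78613,
  nat_lit 78617,
  nat_lit 78618,
  nat_lit 78619,
  nat_lit 78620,
  nat_lit 78621,
  nat_lit 78633,
  nat_lit 78634,
  nat_lit 78635,
  nat_lit 78636,
  nat_lit 78637,
  nat_lit 79049,
  nat_lit 79050,
  nat_lit 79051,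
  nat_lit 79052,
  nat_lit 79053,
  nat_lit 79057,
  nat_lit 79058,
  nat_lit 79059,
  nat_lit 79060,
  nat_lit 79061,
  nat_lit 79073,
  nat_lit 79074,
  nat_lit 79075,
  nat_lit 79076,
  nat_lit 79077,
  nat_lit 79081,
  nat_lit 79082,
  nat_lit 79083,
  nat_lit 79084,
  nat_lit 79085,
  nat_lit 79145,
  nat_lit 79146,
  nat_lit 79147,
  nat_lit 79148,
  nat_lit 79149,
  nat_lit 80009,
  nat_lit 80010,
  nat_lit 80011,
  nat_lit 80012,
  nat_lit 80013,
  nat_lit 80033,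
  nat_lit 80034,
  nat_lit 80035,
  nat_lit 80036,
  nat_lit 80037,
  nat_lit 103513,
  nat_lit 103514,
  nat_lit 103515,
  nat_lit 103516,
  nat_lit 103517,
  nat_lit 103529,
  nat_lit 103530,
  nat_lit 103531,
  nat_lit 103532,
  nat_lit 103533,
  nat_lit 103625,
  nat_lit 103626,
  nat_lit 103627,
  nat_lit 103628,
  nat_lit 103629,
  nat_lit 104025,
  nat_lit 104026,
  nat_lit 104027,
  nat_lit 104028,
  nat_lit 104029]
noncomputable def NN6 : List ℕ := NN5 ++ N6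
noncomputable def W6 : List ℕ := NN5 ++ (N6 ++ X6)
noncomputable def N7 : List ℕ := []
noncomputable def X7 : List ℕ := [nat_lit 332881,
  nat_lit 332882,
  nat_lit 332883,
  nat_lit 332884,
  nat_lit 332885,
  nat_lit 332889,
  nat_lit 332890,
  nat_lit 332891,
  nat_lit 332892,
  nat_lit 332893,
  nat_lit 332897,
  nat_lit 332898,
  nat_lit 332899,
  nat_lit 332900,
  nat_lit 332901,
  nat_lit 332905,
  nat_lit 332906,
  nat_lit 332907,
  nat_lit 332908,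
  nat_lit 332909,
  nat_lit 333001,
  nat_lit 333002,
  nat_lit 333003,
  nat_lit 333004,
  nat_lit 333005,
  nat_lit 333009,
  nat_lit 333010,
  nat_lit 333011,
  nat_lit 333012,
  nat_lit 333013,
  nat_lit 333025,
  nat_lit 333026,
  nat_lit 333027,
  nat_lit 333028,
  nat_lit 333029,
  nat_lit 333033,
  nat_lit 333034,
  nat_lit 333035,
  nat_lit 333036,
  nat_lit 333037,
  nat_lit 333073,
  nat_lit 333074,
  nat_lit 333075,
  nat_lit 333076,
  nat_lit 333077,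
  nat_lit 333081,
  nat_lit 333082,
  nat_lit 333083,
  nat_lit 333084,
  nat_lit 333085,
  nat_lit 333097,
  nat_lit 333098,
  nat_lit 333099,
  nat_lit 333100,
  nat_lit 333101,
  nat_lit 333393,
  nat_lit 333394,
  nat_lit 333395,
  nat_lit 333396,
  nat_lit 333397,
  nat_lit 333401,
  nat_lit 333402,
  nat_lit 333403,
  nat_lit 333404,
  nat_lit 333405,
  nat_lit 333409,
  nat_lit 333410,
  nat_lit 333411,
  nat_lit 333412,
  nat_lit 333413,
  nat_lit 333417,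
  nat_lit 333418,
  nat_lit 333419,
  nat_lit 333420,
  nat_lit 333421,
  nat_lit 333465,
  nat_lit 333466,
  nat_lit 333467,
  nat_lit 333468,
  nat_lit 333469,
  nat_lit 333473,
  nat_lit 333474,
  nat_lit 333475,
  nat_lit 333476,
  nat_lit 333477,
  nat_lit 333481,
  nat_lit 333482,
  nat_lit 333483,
  nat_lit 333484,
  nat_lit 333485,
  nat_lit 333585,
  nat_lit 333586,
  nat_lit 333587,
  nat_lit 333588,
  nat_lit 333589,
  nat_lit 333593,
  nat_lit 333594,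
  nat_lit 333595,
  nat_lit 333596,
  nat_lit 333597,
  nat_lit 333609,
  nat_lit 333610,
  nat_lit 333611,
  nat_lit 333612,
  nat_lit 333613,
  nat_lit 333961,
  nat_lit 333962,
  nat_lit 333963,
  nat_lit 333964,
  nat_lit 333965,
  nat_lit 333977,
  nat_lit 333978,
  nat_lit 333979,
  nat_lit 333980,
  nat_lit 333981,
  nat_lit 333985,
  nat_lit 333986,
  nat_lit 333987,
  nat_lit 333988,
  nat_lit 333989,
  nat_lit 340633,
  nat_lit 340634,
  nat_lit 340635,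
  nat_lit 340636,
  nat_lit 340637,
  nat_lit 340641,
  nat_lit 340642,
  nat_lit 340643,
  nat_lit 340644,
  nat_lit 340645,
  nat_lit 340649,
  nat_lit 340650,
  nat_lit 340651,
  nat_lit 340652,
  nat_lit 340653,
  nat_lit 340681,
  nat_lit 340682,
  nat_lit 340683,
  nat_lit 340684,
  nat_lit 340685,
  nat_lit 340689,
  nat_lit 340690,
  nat_lit 340691,
  nat_lit 340692,
  nat_lit 340693,
  nat_lit 340713,
  nat_lit 340714,
  nat_lit 340715,
  nat_lit 340716,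
  nat_lit 340717,
  nat_lit 340753,
  nat_lit 340754,
  nat_lit 340755,
  nat_lit 340756,
  nat_lit 340757]
noncomputable def NN7 : List ℕ := NN6 ++ N7
noncomputable def W7 : List ℕ := NN6 ++ (N7 ++ X7)
noncomputable def T1 : Fin 5 → List ℕ := fun b => match b with
  | 0 => [nat_lit 0x10000]
  | 1 => [nat_lit 0x100000000]
  | 2 => [nat_lit 0x1000000000000]
  | 3 => [nat_lit 0x10000000000000000]
  | 4 => [nat_lit 0x100000000000000000000]

end Pool.Agent.Zk45.SQ
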