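import Pool.Agent.Zk45.SQ.Five0
import Pool.Agent.Zk42.SQ.Stm

/-!
# The module FIVE
-/

set_option autoImplicit false

namespace Pool.Agent.Zk45.SQ

theorem five : Pool.Agent.Zk42.SQ.S_FIVE :=
  ⟨3, ⟨by norm_num⟩, 7, 7, LL, fun _ => 1, by norm_num, by norm_num, nil0, triv0⟩

end Pool.Agent.Zk45.SQ
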