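import Pool.Agent.Zk45.SQ.Main

/-!
# FIVE with copies of the definitions of `Pool.Agent.Zk42.SQ.Stm`
-/

set_option autoImplicit false

namespace Pool.Agent.Zk45.SQ

section
variable {k : ℕ} {K : Type} [CommRing K] {E : Type} [AddCommGroup E] [Module K E]

def Rel' (L : Fin k → Fin k → K) (U : Fin k → K) (d D : ℕ) (f : List (Fin k) → E) : Prop :=
  (∀ (a b : List (Fin k)) (i : Fin k), d ≤ a.length + b.length + 2 → a.length + b.length + 2 ≤ D →
    ∑ j, L i j • (f (a ++ j :: i :: b) - f (a ++ i :: j :: b)) = U i • f (a ++ i :: b)) ∧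
  ∀ (a b : List (Fin k)) (i : Fin k), d ≤ a.length + b.length + 2 → a.length + b.length + 2 ≤ D →
    f (a ++ i :: i :: b) = 0

def Nil' (L : Fin k → Fin k → K) (d : ℕ) : Prop :=
  ∀ f : List (Fin k) → K, Rel' L (0 : Fin k → K) d d f → ∀ w : List (Fin k), w.length = d → f w = 0

def Triv' (L : Fin k → Fin k → K) (U : Fin k → K) (D : ℕ) : Prop :=
  ∀ f : List (Fin k) → K, Rel' L U 1 D f → ∀ w : List (Fin k), 1 ≤ w.length → w.length ≤ D → f w = 0

end

/-- the matrix of the special point -/
def LL : Fin 5 → Fin 5 → ZMod 3 := fun i j => if j = i + 1 ∨ j = i + 2 ∨ j = i + 3 then 1 else 0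

theorem sum_LL (i : Fin 5) (g : Fin 5 → ZMod 3) :
    ∑ j, LL i j • g j = g (i + 1) + g (i + 2) + g (i + 3) := by
  fin_cases i <;> simp [Fin.sum_univ_five, LL] <;> ring

theorem triv0 : Triv' LL (fun _ => 1) 7 := by
  intro f hf w h1 h2
  set f' : List (Fin 5) → K3 := fun w => if w = [] then 0 else f w with hf'
  have hne : ∀ w : List (Fin 5), w ≠ [] → f' w = f w := fun w hw => by simp [hf', hw]
  have hrel : RelF f' := by
    constructor
    · intro a b i hab
      have := hf.1 a b i (by omega) hab
      rw [sum_LL] at this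
      rw [hne _ (by simp), hne _ (by simp), hne _ (by simp), hne _ (by simp), hne _ (by simp),
        hne _ (by simp), hne _ (by simp)]
      have h1 : (1 : ZMod 3) • f (a ++ i :: b) = f (a ++ i :: b) := one_smul _ _
      rw [h1] at this
      rw [← this]
      ring
    · intro a b i hab
      rw [hne _ (by simp)]
      exact hf.2 a b i (by omega) hab
  have := main hrel (by simp [hf']) w h2
  have hw : w ≠ [] := by
    rintro rfl
    simp at h1
  rwa [hne w hw] at this

theorem nil0 : Nil' LL 7 := by
  intro f hf w hw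
  set f' : List (Fin 5) → ZMod 3 := fun w => if w.length = 7 then f w else 0 with hf'
  have h7 : ∀ w : List (Fin 5), w.length = 7 → f' w = f w := fun w hw => by simp [hf', hw]
  have h0 : ∀ w : List (Fin 5), w.length ≠ 7 → f' w = 0 := fun w hw => by simp [hf', hw]
  have hrel : Rel' LL (fun _ => (1 : ZMod 3)) 1 7 f' := by
    constructor
    · intro a b i _ hab
      rw [h0 (a ++ i :: b) (by simp; omega), smul_zero]
      rcases Nat.lt_or_ge (a.length + b.length + 2) 7 with h | h
      · refine Finset.sum_eq_zero fun j _ => ?_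
        rw [h0 _ (by simp; omega), h0 _ (by simp; omega), sub_zero, smul_zero]
      · have := hf.1 a b i h hab
        rw [Pi.zero_apply, zero_smul] at this
        rw [← this]
        refine Finset.sum_congr rfl fun j _ => ?_
        rw [h7 _ (by simp; omega), h7 _ (by simp; omega)]
    · intro a b i _ hab
      rcases Nat.lt_or_ge (a.length + b.length + 2) 7 with h | h
      · exact h0 _ (by simp; omega)
      · rw [h7 _ (by simp; omega)]
        exact hf.2 a b i h hab
  have := triv0 f' hrel w (by omega) (by omega)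
  rwa [h7 w hw] at this

end Pool.Agent.Zk45.SQ
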