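import Pool.Agent.Zk45.SQ.C2A
import Pool.Agent.Zk45.SQ.C3A
import Pool.Agent.Zk45.SQ.C4A
import Pool.Agent.Zk45.SQ.C5A
import Pool.Agent.Zk45.SQ.C5B
import Pool.Agent.Zk45.SQ.C5C
import Pool.Agent.Zk45.SQ.C6A
import Pool.Agent.Zk45.SQ.C6B
import Pool.Agent.Zk45.SQ.C6C
import Pool.Agent.Zk45.SQ.C7A
import Pool.Agent.Zk45.SQ.C7B
import Pool.Agent.Zk45.SQ.C7C

/-!
# The levels
-/

set_option autoImplicit false
set_option maxRecDepth 100000

namespace Pool.Agent.Zk45.SQ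

theorem st1 (f : List (Fin 5) → K3) : St f 1 NN0 NN1 T1 ([] : List ℕ) := by
  have h0 : NN0 = [0] := rfl
  have h1 : NN1 = [0, 1, 2, 3, 4, 5] := rfl
  refine ⟨?_, ?_, ?_, ?_⟩
  · intro e he
    rw [h0] at he
    have : e = 0 := by simpa using he
    subst this
    simp [wd_zero]
  · intro e he
    refine wd_length ?_
    rw [h1] at he
    simp at he
    omega
  · intro b s _
    have hps : chkPos NN1 b.val NN0 [b.val + 1] = true := by
      rw [h0, h1]
      fin_cases b <;> decide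
    have := forall₂_upw (R := fun e r => Bd 3 NN1.length r ∧
      f (wd e ++ b :: s) = ev NN1 r (F f s)) ((chkPos_ok f s hps).imp fun e p h =>
      ⟨h.1.mono (by norm_num), h.2⟩)
    have hT : T1 b = upw [b.val + 1] := by
      fin_cases b <;> rfl
    rw [hT]
    exact this
  · intro z hz
    simp at hz


theorem st2 {f : List (Fin 5) → K3} (hf : RelF f) : St f 2 NN1 NN2 T2 z2 := by
  have hl : ((NN0 ++ N1) ++ (N2 ++ X2)).length = 31 := len2
  have hl' : ((NN0 ++ N1) ++ N2).length = 21 := nlen2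
  have hl0 : (NN0 ++ N1).length ≤ 238 := by decide
  refine step hf (m := 1) (NNpp := NN0) (Nt := N1) (Nn := N2) (X := X2) (T := T1) (Z := [])
    (st1 f) ps2 Rt2 Cs2 sp2 rw2 z2 cz2 hl0 lt2 ?_ ?_ (by rw [rlen2]; norm_num) ?_ ?_
  · intro b; fin_cases b
    exacts [pc2_0, pc2_1, pc2_2, pc2_3, pc2_4]
  · rw [hl]; exact rc2_0
  · rw [hl, hl']; intro b; fin_cases b
    exacts [tc2_0, tc2_1, tc2_2, tc2_3, tc2_4]
  · rw [hl, hl']; exact zc2_0

theorem st3 {f : List (Fin 5) → K3} (hf : RelF f) : St f 3 NN2 NN3 T3 z3 := by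
  have hl : ((NN1 ++ N2) ++ (N3 ++ X3)).length = 96 := len3
  have hl' : ((NN1 ++ N2) ++ N3).length = 56 := nlen3
  have hl0 : (NN1 ++ N2).length ≤ 238 := (show NN2.length ≤ 238 by rw [nlen2]; norm_num)
  refine step hf (m := 2) (NNpp := NN1) (Nt := N2) (Nn := N3) (X := X3) (T := T2) (Z := z2)
    (st2 hf) ps3 Rt3 Cs3 sp3 rw3 z3 cz3 hl0 lt3 ?_ ?_ (by rw [rlen3]; norm_num) ?_ ?_
  · intro b; fin_cases b
    exacts [pc3_0, pc3_1, pc3_2, pc3_3, pc3_4]
  · rw [hl]; exact rc3_0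
  · rw [hl, hl']; intro b; fin_cases b
    exacts [tc3_0, tc3_1, tc3_2, tc3_3, tc3_4]
  · rw [hl, hl']; exact zc3_0

theorem st4 {f : List (Fin 5) → K3} (hf : RelF f) : St f 4 NN3 NN4 T4 z4 := by
  have hl : ((NN2 ++ N3) ++ (N4 ++ X4)).length = 231 := len4
  have hl' : ((NN2 ++ N3) ++ N4).length = 121 := nlen4
  have hl0 : (NN2 ++ N3).length ≤ 238 := (show NN3.length ≤ 238 by rw [nlen3]; norm_num)
  refine step hf (m := 3) (NNpp := NN2) (Nt := N3) (Nn := N4) (X := X4) (T := T3) (Z := z3)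
    (st3 hf) ps4 Rt4 Cs4 sp4 rw4 z4 cz4 hl0 lt4 ?_ ?_ (by rw [rlen4]; norm_num) ?_ ?_
  · intro b; fin_cases b
    exacts [pc4_0, pc4_1, pc4_2, pc4_3, pc4_4]
  · rw [hl]; exact rowsOK_append _ _ _ _ rc4_0 (rc4_1)
  · rw [hl, hl']; intro b; fin_cases b
    exacts [tc4_0, tc4_1, tc4_2, tc4_3, tc4_4]
  · rw [hl, hl']; exact zc4_0

theorem st5 {f : List (Fin 5) → K3} (hf : RelF f) : St f 5 NN4 NN5 T5 z5 := by
  have hl : ((NN3 ++ N4) ++ (N5 ++ X5)).length = 446 := len5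
  have hl' : ((NN3 ++ N4) ++ N5).length = 207 := nlen5
  have hl0 : (NN3 ++ N4).length ≤ 238 := (show NN4.length ≤ 238 by rw [nlen4]; norm_num)
  refine step hf (m := 4) (NNpp := NN3) (Nt := N4) (Nn := N5) (X := X5) (T := T4) (Z := z4)
    (st4 hf) ps5 Rt5 Cs5 sp5 rw5 z5 cz5 hl0 lt5 ?_ ?_ (by rw [rlen5]; norm_num) ?_ ?_
  · intro b; fin_cases b
    exacts [pc5_0, pc5_1, pc5_2, pc5_3, pc5_4]
  · rw [hl]; exact rowsOK_append _ _ _ _ rc5_0 (rowsOK_append _ _ _ _ rc5_1 (rowsOK_append _ _ _ _ rc5_2 (rc5_3)))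
  · rw [hl, hl']; intro b; fin_cases b
    exacts [tc5_0, tc5_1, tc5_2, tc5_3, tc5_4]
  · rw [hl, hl']; exact zc5_0

theorem st6 {f : List (Fin 5) → K3} (hf : RelF f) : St f 6 NN5 NN6 T6 z6 := by
  have hl : ((NN4 ++ N5) ++ (N6 ++ X6)).length = 637 := len6
  have hl' : ((NN4 ++ N5) ++ N6).length = 238 := nlen6
  have hl0 : (NN4 ++ N5).length ≤ 238 := (show NN5.length ≤ 238 by rw [nlen5]; norm_num)
  refine step hf (m := 5) (NNpp := NN4) (Nt := N5) (Nn := N6) (X := X6) (T := T5) (Z := z5)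
    (st5 hf) ps6 Rt6 Cs6 sp6 rw6 z6 cz6 hl0 lt6 ?_ ?_ (by rw [rlen6]; norm_num) ?_ ?_
  · intro b; fin_cases b
    exacts [pc6_0, pc6_1, pc6_2, pc6_3, pc6_4]
  · rw [hl]; exact rowsOK_append _ _ _ _ rc6_0 (rowsOK_append _ _ _ _ rc6_1 (rowsOK_append _ _ _ _ rc6_2 (rowsOK_append _ _ _ _ rc6_3 (rowsOK_append _ _ _ _ rc6_4 (rowsOK_append _ _ _ _ rc6_5 (rc6_6))))))
  · rw [hl, hl']; intro b; fin_cases b
    exacts [tc6_0, tc6_1, tc6_2, tc6_3, tc6_4]
  · rw [hl, hl']; exact zc6_0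

theorem st7 {f : List (Fin 5) → K3} (hf : RelF f) : St f 7 NN6 NN7 T7 z7 := by
  have hl : ((NN5 ++ N6) ++ (N7 ++ X7)).length = 393 := len7
  have hl' : ((NN5 ++ N6) ++ N7).length = 238 := nlen7
  have hl0 : (NN5 ++ N6).length ≤ 238 := (show NN6.length ≤ 238 by rw [nlen6])
  refine step hf (m := 6) (NNpp := NN5) (Nt := N6) (Nn := N7) (X := X7) (T := T6) (Z := z6)
    (st6 hf) ps7 Rt7 Cs7 sp7 rw7 z7 cz7 hl0 lt7 ?_ ?_ (by rw [rlen7]; norm_num) ?_ ?_
  · intro b; fin_cases b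
    exacts [pc7_0, pc7_1, pc7_2, pc7_3, pc7_4]
  · rw [hl]; exact rowsOK_append _ _ _ _ rc7_0 (rowsOK_append _ _ _ _ rc7_1 (rowsOK_append _ _ _ _ rc7_2 (rowsOK_append _ _ _ _ rc7_3 (rowsOK_append _ _ _ _ rc7_4 (rowsOK_append _ _ _ _ rc7_5 (rc7_6))))))
  · rw [hl, hl']; intro b; fin_cases b
    exacts [tc7_0, tc7_1, tc7_2, tc7_3, tc7_4]
  · rw [hl, hl']; exact zOK_append _ _ _ zc7_0 (zOK_append _ _ _ zc7_1 (zOK_append _ _ _ zc7_2 (zc7_3)))

theorem sub_append {A B : List ℕ} : ∀ e ∈ A, e ∈ A ++ B := fun _ he => List.mem_append_left _ he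

theorem gt_of_mem : ∀ {l : List ℕ} {e : ℕ}, e ∈ l → ∃ p < l.length, gt l p = e
  | a :: l, e, h => by
      rcases List.mem_cons.1 h with rfl | h
      · exact ⟨0, by simp, rfl⟩
      · obtain ⟨p, hp, h⟩ := gt_of_mem h
        exact ⟨p + 1, by simpa using hp, h⟩

def chkz : ℕ → ℕ → List ℕ → Bool
  | _, 0, _ => true
  | i, n + 1, p :: ps => Nat.beq p i && chkz (i + 1) n ps
  | _, _ + 1, [] => false

theorem chkz_ok : ∀ {n i : ℕ} {ps : List ℕ}, chkz i n ps = true → ∀ p, i ≤ p → p < i + n → p ∈ ps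
  | 0, i, _, _, p, h1, h2 => by omega
  | n + 1, i, q :: ps, h, p, h1, h2 => by
      simp only [chkz, Bool.and_eq_true] at h
      have hq : q = i := Nat.eq_of_beq_eq_true h.1
      rcases Nat.eq_or_lt_of_le h1 with h3 | h3
      · rw [hq, h3]; simp
      · exact List.mem_cons_of_mem _ (chkz_ok h.2 p (by omega) (by omega))
  | _ + 1, _, [], h, _, _, _ => by simp [chkz] at h

theorem chkz7 : chkz 1 237 (zp7_0 ++ (zp7_1 ++ (zp7_2 ++ zp7_3))) = true := by decide +kernel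

theorem z7_eq : z7 = upw (zp7_0 ++ (zp7_1 ++ (zp7_2 ++ zp7_3))) := by
  simp only [z7, z7_0, z7_1, z7_2, z7_3, upw, List.map_append]

def posOK (l : List ℕ) : Bool := Nat.beq (gt l 0) 0 && chkp l.tail
where
  chkp : List ℕ → Bool
    | [] => true
    | a :: l => Nat.blt 0 a && chkp l

theorem chkp_ok : ∀ {l : List ℕ}, posOK.chkp l = true → ∀ e ∈ l, e ≠ 0
  | [], _, e, he => by simp at he
  | a :: l, h, e, he => by
      simp only [posOK.chkp, Bool.and_eq_true] at h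
      rcases List.mem_cons.1 he with rfl | he
      · have := h.1
        have h2 : 1 ≤ e := by simpa [Nat.blt] using this
        omega
      · exact chkp_ok h.2 e he

theorem nn7_pos : posOK.chkp NN7.tail = true := by decide +kernel

theorem gt_tail : ∀ (l : List ℕ) (p : ℕ), gt l (p + 1) = gt l.tail p
  | [], p => by simp [gt]
  | _ :: _, _ => rfl

theorem gt_mem' : ∀ {l : List ℕ} {p : ℕ}, p < l.length → gt l p ∈ l
  | a :: l, 0, _ => by simp [gt]
  | a :: l, p + 1, h => by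
      have := gt_mem' (l := l) (p := p) (by simpa using h)
      simp [gt, this]

theorem vanish7 {f : List (Fin 5) → K3} (hf : RelF f) (h0 : f [] = 0) :
    ∀ s : List (Fin 5), 7 + s.length ≤ 7 → ∀ e ∈ NN7, F f s e = 0 := by
  intro s hs e he
  have hs0 : s = [] := List.length_eq_zero_iff.1 (by omega)
  subst hs0
  obtain ⟨p, hp, hpe⟩ := gt_of_mem he
  rw [nlen7] at hp
  rcases Nat.eq_zero_or_pos p with h | h
  · have hz : gt NN7 0 = 0 := rfl
    rw [h, hz] at hpe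
    rw [← hpe]
    show f (wd 0 ++ []) = 0
    rw [wd_zero]
    exact h0
  · have hmem : 65536 ^ p ∈ z7 := by
      rw [z7_eq]
      exact List.mem_map.2 ⟨p, chkz_ok chkz7 p (by omega) (by omega), rfl⟩
    have h1 := ((st7 hf).zf _ hmem).2 [] (by simp)
    have hne : gt NN7 p ≠ 0 := by
      obtain ⟨q, rfl⟩ := Nat.exists_eq_succ_of_ne_zero (by omega : p ≠ 0)
      rw [Nat.succ_eq_add_one, gt_tail]
      refine chkp_ok nn7_pos _ (gt_mem' ?_)
      rw [List.length_tail, nlen7]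
      omega
    have h2 := (unit_ok (F f []) hne).2
    rw [h1] at h2
    rw [← hpe, ← h2]

theorem main {f : List (Fin 5) → K3} (hf : RelF f) (h0 : f [] = 0) :
    ∀ w : List (Fin 5), w.length ≤ 7 → f w = 0 := by
  have v7 := vanish7 hf h0
  have v6 := back (m := 6) (st7 hf) (by norm_num) (fun e he => List.mem_append_left _ he) v7
  have v5 := back (m := 5) (st6 hf) (by norm_num) (fun e he => List.mem_append_left _ he) v6
  have v4 := back (m := 4) (st5 hf) (by norm_num) (fun e he => List.mem_append_left _ he) v5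
  have v3 := back (m := 3) (st4 hf) (by norm_num) (fun e he => List.mem_append_left _ he) v4
  have v2 := back (m := 2) (st3 hf) (by norm_num) (fun e he => List.mem_append_left _ he) v3
  have v1 := back (m := 1) (st2 hf) (by norm_num) (fun e he => List.mem_append_left _ he) v2
  intro w hw
  cases w with
  | nil => exact h0
  | cons b s =>
      have h1 : NN1 = [0, 1, 2, 3, 4, 5] := rfl
      have hb : b.val + 1 ∈ NN1 := by
        rw [h1]
        have := b.isLt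
        simp
        omega
      have := v1 s (by simp at hw; omega) _ hb
      have hw1 : wd (b.val + 1) = [b] := by
        have := wd_snoc 0 b
        simpa [wd_zero] using this
      simpa [F, hw1] using this

end Pool.Agent.Zk45.SQ
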