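import Pool.Agent.Zk45.SQ.Core

/-!
# One level of the elimination
-/

set_option autoImplicit false

namespace Pool.Agent.Zk45.SQ

/-- values on the word with code `c` followed by `s` -/
def F (f : List (Fin 5) → K3) (s : List (Fin 5)) : ℕ → K3 := fun c => f (wd c ++ s)

/-- the relations up to length seven -/
def RelF (f : List (Fin 5) → K3) : Prop :=
  (∀ (a b : List (Fin 5)) (i : Fin 5), a.length + b.length + 2 ≤ 7 →
    (f (a ++ (i + 1) :: i :: b) + f (a ++ (i + 2) :: i :: b) + f (a ++ (i + 3) :: i :: b)) -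
    (f (a ++ i :: (i + 1) :: b) + f (a ++ i :: (i + 2) :: b) + f (a ++ i :: (i + 3) :: b)) =
      f (a ++ i :: b)) ∧
  ∀ (a b : List (Fin 5)) (i : Fin 5), a.length + b.length + 2 ≤ 7 → f (a ++ i :: i :: b) = 0

/-- the table `T b` gives the values on `e b s`, `e ∈ N`, over the words `V` -/
def Tab (f : List (Fin 5) → K3) (n : ℕ) (V N : List ℕ) (T : Fin 5 → List ℕ) : Prop :=
  ∀ (b : Fin 5) (s : List (Fin 5)), n + s.length ≤ 7 →
    List.Forall₂ (fun e r => Bd 3 V.length r ∧ f (wd e ++ b :: s) = ev V r (F f s)) N (T b)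

def ZF (f : List (Fin 5) → K3) (n : ℕ) (V Z : List ℕ) : Prop :=
  ∀ z ∈ Z, Bd 3 V.length z ∧ ∀ s : List (Fin 5), n + s.length ≤ 7 → ev V z (F f s) = 0

def chkPos (W : List ℕ) (b : ℕ) : List ℕ → List ℕ → Bool
  | [], [] => true
  | e :: es, p :: ps => Nat.beq (gt W p) (8 * e + (b + 1)) && chkPos W b es ps
  | _, _ => false

theorem chkPos_ok (f : List (Fin 5) → K3) {W : List ℕ} {b : Fin 5} (s : List (Fin 5)) :
    ∀ {es ps : List ℕ}, chkPos W b.val es ps = true →
    List.Forall₂ (fun e p => Bd 1 W.length (65536 ^ p) ∧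
      f (wd e ++ b :: s) = ev W (65536 ^ p) (F f s)) es ps
  | [], [], _ => List.Forall₂.nil
  | e :: es, p :: ps, h => by
      simp only [chkPos, Bool.and_eq_true] at h
      have h1 : gt W p = 8 * e + (b.val + 1) := Nat.eq_of_beq_eq_true h.1
      have h2 := unit_ok (F f s) (W := W) (p := p) (by rw [h1]; omega)
      refine List.Forall₂.cons ⟨h2.1, ?_⟩ (chkPos_ok f s h.2)
      rw [h2.2, h1]
      show f (wd e ++ b :: s) = f (wd (8 * e + (b.val + 1)) ++ s)
      rw [wd_snoc]
      simp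
  | [], _ :: _, h => by simp [chkPos] at h
  | _ :: _, [], h => by simp [chkPos] at h

def upw (ps : List ℕ) : List ℕ := ps.map (fun p => 65536 ^ p)

theorem forall₂_upw {R : ℕ → ℕ → Prop} : ∀ {es ps : List ℕ},
    List.Forall₂ (fun e p => R e (65536 ^ p)) es ps → List.Forall₂ R es (upw ps)
  | _, _, List.Forall₂.nil => List.Forall₂.nil
  | _, _, List.Forall₂.cons h t => List.Forall₂.cons h (forall₂_upw t)

theorem forall₂_comp {R S : ℕ → ℕ → Prop} : ∀ {a b c : List ℕ},
    List.Forall₂ R a b → List.Forall₂ S b c → List.Forall₂ (fun x z => ∃ y, R x y ∧ S y z) a c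
  | _, _, _, List.Forall₂.nil, List.Forall₂.nil => List.Forall₂.nil
  | _, _, _, List.Forall₂.cons h t, List.Forall₂.cons h' t' =>
      List.Forall₂.cons ⟨_, h, h'⟩ (forall₂_comp t t')

theorem forall₂_append {R : ℕ → ℕ → Prop} : ∀ {a b c d : List ℕ},
    List.Forall₂ R a b → List.Forall₂ R c d → List.Forall₂ R (a ++ c) (b ++ d)
  | _, _, _, _, List.Forall₂.nil, h => h
  | _, _, _, _, List.Forall₂.cons h t, h' => List.Forall₂.cons h (forall₂_append t h')

theorem gt_forall₂ {R : ℕ → ℕ → Prop} : ∀ {l1 l2 : List ℕ}, List.Forall₂ R l1 l2 → ∀ k : ℕ,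
    (k < l1.length → R (gt l1 k) (gt l2 k) ∧ gt l1 k ∈ l1) ∧ (l1.length ≤ k → gt l2 k = 0)
  | _, _, List.Forall₂.nil, k => ⟨fun h => by simp at h, fun _ => rfl⟩
  | _, _, List.Forall₂.cons h _, 0 => ⟨fun _ => ⟨h, by simp [gt]⟩, fun h' => by simp at h'⟩
  | _, _, List.Forall₂.cons _ t, k + 1 => by
      have ih := gt_forall₂ t k
      refine ⟨fun h' => ?_, fun h' => ?_⟩
      · have := ih.1 (by simpa using h')
        exact ⟨this.1, List.mem_cons_of_mem _ this.2⟩
      · exact ih.2 (by simpa using h')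

theorem gt_mem : ∀ {Z : List ℕ} {k : ℕ}, gt Z k ≠ 0 → gt Z k ∈ Z
  | [], k, h => by simp [gt] at h
  | a :: l, 0, _ => by simp [gt]
  | a :: l, k + 1, h => by
      have := gt_mem (Z := l) (k := k) (by simpa [gt] using h)
      simp [gt, this]

inductive Sp where
  | sq (k : ℕ) (i : Fin 5) : Sp
  | zz (k : ℕ) (i : Fin 5) : Sp
  | co (k : ℕ) (i : Fin 5) : Sp

def rv (T P : Fin 5 → List ℕ) (Z : List ℕ) : Sp → ℕ
  | Sp.sq k i => comb 65536 (gt (T i) k) (P i)
  | Sp.zz k i => comb 65536 (gt Z k) (P i)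
  | Sp.co k i => comb 65536 (gt (T (i + 1)) k + gt (T (i + 2)) k + gt (T (i + 3)) k) (P i) +
      (2 * (comb 65536 (gt (T i) k) (P (i + 1)) + comb 65536 (gt (T i) k) (P (i + 2)) +
        comb 65536 (gt (T i) k) (P (i + 3))) + 2 * gt (T i) k)

theorem K3_two (x : K3) : 2 * x = -x := by
  have h : (3 : K3) = 0 := by decide
  linear_combination x * h

theorem rv_ok {f : List (Fin 5) → K3} (hf : RelF f) {m : ℕ} {NNpp NNp G : List ℕ}
    {T P : Fin 5 → List ℕ} {Z : List ℕ} (hlen : ∀ e ∈ NNpp, (wd e).length + 1 ≤ m)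
    (hT : Tab f m NNp NNpp T) (hP : Tab f (m + 1) (NNp ++ G) NNp P) (hZ : ZF f m NNp Z)
    (hL : NNp.length ≤ 238) (sp : Sp) (s : List (Fin 5)) (hs : m + 1 + s.length ≤ 7) :
    Bd 19284 (NNp ++ G).length (rv T P Z sp) ∧ ev (NNp ++ G) (rv T P Z sp) (F f s) = 0 := by
  have hT' : ∀ (b : Fin 5) (k : ℕ) (s' : List (Fin 5)), m + s'.length ≤ 7 → k < NNpp.length →
      Bd 3 NNp.length (gt (T b) k) ∧ f (wd (gt NNpp k) ++ b :: s') = ev NNp (gt (T b) k) (F f s') ∧
      gt NNpp k ∈ NNpp := fun b k s' hs' hk =>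
    ⟨(((gt_forall₂ (hT b s' hs') k).1 hk).1).1, (((gt_forall₂ (hT b s' hs') k).1 hk).1).2,
      ((gt_forall₂ (hT b s' hs') k).1 hk).2⟩
  have hT0 : ∀ (b : Fin 5) (k : ℕ), NNpp.length ≤ k → gt (T b) k = 0 := fun b k hk =>
    (gt_forall₂ (hT b s (by omega)) k).2 hk
  have c0 : ∀ (b : Fin 5), comb 65536 0 (P b) = 0 := by
    intro b
    generalize P b = l
    induction l with
    | nil => rfl
    | cons a l ih => simp [comb, ih]
  have hC : ∀ (b : Fin 5) (v c : ℕ), Bd c NNp.length v → c ≤ 9 →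
      Bd (c * 3 * 238) (NNp ++ G).length (comb 65536 v (P b)) ∧
      ev (NNp ++ G) (comb 65536 v (P b)) (F f s) = ev NNp v (F f (b :: s)) := by
    intro b v c hv hc
    have hb : c * 3 * NNp.length ≤ c * 3 * 238 := Nat.mul_le_mul_left _ hL
    have := comb_mul (F f s) (F f (b :: s)) (hP b s hs) (v := v) (c := c) hv (by omega)
    exact ⟨this.1.mono hb, this.2⟩
  cases sp with
  | sq k i =>
      simp only [rv]
      rcases Nat.lt_or_ge k NNpp.length with hk | hk
      · have h1 := hT' i k (i :: s) (by simp; omega) hk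
        have h2 := hC i (gt (T i) k) 3 h1.1 (by norm_num)
        refine ⟨h2.1.mono (by norm_num), ?_⟩
        rw [h2.2, ← h1.2.1]
        exact hf.2 _ _ _ (by have := hlen _ h1.2.2; omega)
      · rw [hT0 i k hk, c0]
        exact ⟨Bd.zero _ _, ev_zero _ _⟩
  | zz k i =>
      simp only [rv]
      by_cases hk : gt Z k = 0
      · rw [hk, c0]
        exact ⟨Bd.zero _ _, ev_zero _ _⟩
      · have h1 := hZ _ (gt_mem hk)
        have h2 := hC i (gt Z k) 3 h1.1 (by norm_num)
        refine ⟨h2.1.mono (by norm_num), ?_⟩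
        rw [h2.2]
        exact h1.2 (i :: s) (by simp; omega)
  | co k i =>
      simp only [rv]
      rcases Nat.lt_or_ge k NNpp.length with hk | hk
      · have hr := fun (j : Fin 5) (s' : List (Fin 5)) (hs' : m + s'.length ≤ 7) => hT' j k s' hs' hk
        have r1 := hr (i + 1) (i :: s) (by simp; omega)
        have r2 := hr (i + 2) (i :: s) (by simp; omega)
        have r3 := hr (i + 3) (i :: s) (by simp; omega)
        have q0 := hr i s (by omega)
        have q1 := hr i ((i + 1) :: s) (by simp; omega)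
        have q2 := hr i ((i + 2) :: s) (by simp; omega)
        have q3 := hr i ((i + 3) :: s) (by simp; omega)
        have a12 := Bd.add (m := 3) (m' := 3) (by norm_num) r1.1 r2.1
        have a123 := Bd.add (m := 3 + 3) (m' := 3) (by norm_num) a12 r3.1
        have X := hC i _ 9 (a123.mono (by norm_num)) (by norm_num)
        have Y1 := hC (i + 1) _ 3 q0.1 (by norm_num)
        have Y2 := hC (i + 2) _ 3 q0.1 (by norm_num)
        have Y3 := hC (i + 3) _ 3 q0.1 (by norm_num)
        have V : Bd 3 (NNp ++ G).length (gt (T i) k) := by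
          rw [List.length_append]; exact q0.1.mono_len _
        have Y12 := Bd.add (m := 2142) (m' := 2142) (by norm_num) (Y1.1.mono (by norm_num))
          (Y2.1.mono (by norm_num))
        have Y123 := Bd.add (m := 4284) (m' := 2142) (by norm_num) Y12 (Y3.1.mono (by norm_num))
        have YY := Bd.mul (c := 2) (m := 6426) (by norm_num) Y123
        have VV := Bd.mul (c := 2) (m := 3) (by norm_num) V
        have YV := Bd.add (m := 2 * 6426) (m' := 2 * 3) (by norm_num) YY VV
        have XX : Bd 6426 (NNp ++ G).length (comb 65536 (gt (T (i + 1)) k + gt (T (i + 2)) k +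
          gt (T (i + 3)) k) (P i)) := X.1.mono (by norm_num)
        refine ⟨(Bd.add (m := 6426) (m' := 2 * 6426 + 2 * 3) (by norm_num) XX YV).mono
          (by norm_num), ?_⟩
        rw [ev_add (m := 6426) (m' := 2 * 6426 + 2 * 3) (by norm_num) _ XX YV,
          ev_add (m := 2 * 6426) (m' := 2 * 3) (by norm_num) _ YY VV,
          ev_mul (m := 6426) (by norm_num) _ Y123, ev_mul (m := 3) (by norm_num) _ V,
          ev_add (m := 4284) (m' := 2142) (by norm_num) _ Y12 (Y3.1.mono (by norm_num)),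
          ev_add (m := 2142) (m' := 2142) (by norm_num) _ (Y1.1.mono (by norm_num))
            (Y2.1.mono (by norm_num)), X.2, Y1.2, Y2.2, Y3.2, ev_append _ _ q0.1,
          ev_add (m := 3 + 3) (m' := 3) (by norm_num) _ a12 r3.1,
          ev_add (m := 3) (m' := 3) (by norm_num) _ r1.1 r2.1,
          ← r1.2.1, ← r2.2.1, ← r3.2.1, ← q0.2.1, ← q1.2.1, ← q2.2.1, ← q3.2.1]
        have hrel := hf.1 (wd (gt NNpp k)) s i (by have := hlen _ q0.2.2; omega)
        push_cast
        rw [K3_two, K3_two]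
        linear_combination hrel
      · rw [hT0 i k hk, hT0 (i + 1) k hk, hT0 (i + 2) k hk, hT0 (i + 3) k hk]
        simp only [Nat.add_zero, c0, Nat.mul_zero]
        exact ⟨Bd.zero _ _, ev_zero _ _⟩

/-- `A ≡ T` digitwise mod 3 with small quotient, `T` small -/
def okq (L A T : ℕ) : Bool :=
  Nat.beq A (T + 3 * ((A - T) / 3)) && (Nat.beq (Nat.land ((A - T) / 3) (msk 49152 L)) 0 &&
    (Nat.blt ((A - T) / 3) (65536 ^ L)))

/-- all digits are at most 3 -/
def sml (L T : ℕ) : Bool := Nat.beq (Nat.land T (msk 65532 L)) 0 && Nat.blt T (65536 ^ L)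

theorem okq_ok {L A T : ℕ} (h : okq L A T = true) : ∃ Q, Bd 16383 L Q ∧ A = T + 3 * Q := by
  simp only [okq, Bool.and_eq_true] at h
  obtain ⟨h1, h2, h3⟩ := h
  refine ⟨(A - T) / 3, ?_, Nat.eq_of_beq_eq_true h1⟩
  have := bd_of_mask (k := 14) (n := L) (v := (A - T) / 3) (by norm_num)
    (by simpa using Nat.eq_of_beq_eq_true h2) (by simpa [Nat.blt] using h3)
  simpa using this

theorem sml_ok {L T : ℕ} (h : sml L T = true) : Bd 3 L T := by
  simp only [sml, Bool.and_eq_true] at h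
  obtain ⟨h1, h2⟩ := h
  have := bd_of_mask (k := 2) (n := L) (v := T) (by norm_num)
    (by simpa using Nat.eq_of_beq_eq_true h1) (by simpa [Nat.blt] using h2)
  simpa using this

def rowsOK (L : ℕ) (T P : Fin 5 → List ℕ) (Z : List ℕ) : List Sp → List ℕ → Bool
  | [], [] => true
  | sp :: sps, r :: rs => okq L (rv T P Z sp) r && (sml L r && rowsOK L T P Z sps rs)
  | _, _ => false

theorem rowsOK_append (L : ℕ) (T P : Fin 5 → List ℕ) (Z : List ℕ) : ∀ {s1 s2 : List Sp}
    {r1 r2 : List ℕ}, rowsOK L T P Z s1 r1 = true → rowsOK L T P Z s2 r2 = true →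
    rowsOK L T P Z (s1 ++ s2) (r1 ++ r2) = true
  | [], _, [], _, _, h => h
  | sp :: sps, _, r :: rs, _, h, h' => by
      simp only [rowsOK, Bool.and_eq_true, List.cons_append] at h ⊢
      exact ⟨h.1, h.2.1, rowsOK_append L T P Z h.2.2 h'⟩
  | [], _, _ :: _, _, h, _ => by simp [rowsOK] at h
  | _ :: _, _, [], _, h, _ => by simp [rowsOK] at h

theorem rowsOK_ok {f : List (Fin 5) → K3} (hf : RelF f) {m : ℕ} {NNpp NNp G : List ℕ}
    {T P : Fin 5 → List ℕ} {Z : List ℕ} (hlen : ∀ e ∈ NNpp, (wd e).length + 1 ≤ m)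
    (hT : Tab f m NNp NNpp T) (hP : Tab f (m + 1) (NNp ++ G) NNp P) (hZ : ZF f m NNp Z)
    (hL : NNp.length ≤ 238) : ∀ {sps : List Sp} {rs : List ℕ},
    rowsOK (NNp ++ G).length T P Z sps rs = true → ∀ s : List (Fin 5), m + 1 + s.length ≤ 7 →
    ∀ r ∈ rs, Bd 3 (NNp ++ G).length r ∧ ev (NNp ++ G) r (F f s) = 0
  | [], [], _, _, _, r, hr => by simp at hr
  | sp :: sps, r :: rs, h, s, hs, r', hr' => by
      simp only [rowsOK, Bool.and_eq_true] at h
      rcases List.mem_cons.1 hr' with rfl | hr'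
      · obtain ⟨Q, hQ, hA⟩ := okq_ok h.1
        have h1 := rv_ok hf hlen hT hP hZ hL sp s hs
        have h2 := sml_ok h.2.1
        have := mod3 (F f s) (R := 0) h1.1 (Bd.zero _ _) h2 hQ (by norm_num) (by simpa using hA)
        rw [h1.2, ev_zero, add_zero] at this
        exact ⟨h2, this.symm⟩
      · exact rowsOK_ok hf hlen hT hP hZ hL h.2.2 s hs r' hr'
  | [], _ :: _, h, _, _, _, _ => by simp [rowsOK] at h
  | _ :: _, [], h, _, _, _, _ => by simp [rowsOK] at h

def cmb (c : ℕ) (rows : List ℕ) : ℕ := bif Nat.beq c 0 then 0 else comb 4 c rows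

theorem comb_zero4 : ∀ rows : List ℕ, comb 4 0 rows = 0
  | [] => rfl
  | r :: rs => by simp [comb, comb_zero4 rs]

theorem cmb_eq (c : ℕ) (rows : List ℕ) : cmb c rows = comb 4 c rows := by
  unfold cmb
  by_cases h : c = 0
  · subst h; simp [comb_zero4]
  · have : Nat.beq c 0 = false := by
      cases h' : Nat.beq c 0
      · rfl
      · exact absurd (Nat.eq_of_beq_eq_true h') h
    rw [this]; rfl

def tgOK (L Ln : ℕ) (rows : List ℕ) : List ℕ → List ℕ → List ℕ → Bool
  | [], [], [] => true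
  | p :: ps, r :: rs, c :: cs => okq L (cmb c rows + r) (65536 ^ p) &&
      (sml Ln r && tgOK L Ln rows ps rs cs)
  | _, _, _ => false

theorem tgOK_ok (g : ℕ → K3) {W : List ℕ} {Ln k : ℕ} (hk : W.length = Ln + k) {rows : List ℕ}
    (hrows : ∀ r ∈ rows, Bd 3 W.length r ∧ ev W r g = 0) (hn : 9 * rows.length + 3 < 65536) :
    ∀ {ps Rt Cs : List ℕ}, tgOK W.length Ln rows ps Rt Cs = true →
    (∀ p ∈ ps, Bd 1 W.length (65536 ^ p)) →
    List.Forall₂ (fun p r => Bd 3 Ln r ∧ ev W r g = ev W (65536 ^ p) g) ps Rt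
  | [], [], [], _, _ => List.Forall₂.nil
  | p :: ps, r :: rs, c :: cs, h, hp => by
      simp only [tgOK, Bool.and_eq_true] at h
      obtain ⟨Q, hQ, hA⟩ := okq_ok h.1
      rw [cmb_eq] at hA
      have h1 := comb_lin g hrows c (by omega)
      have h2 := sml_ok h.2.1
      have h3 : Bd 3 W.length r := by rw [hk]; exact h2.mono_len _
      have := mod3 g (R := r) h1.1 h3 ((hp p (by simp)).mono (by norm_num)) hQ (by omega) hA
      rw [h1.2, zero_add] at this
      exact List.Forall₂.cons ⟨h2, this⟩ (tgOK_ok g hk hrows hn h.2.2 (fun p' h' => hp p' (by simp [h'])))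
  | [], [], _ :: _, h, _ => by simp [tgOK] at h
  | [], _ :: _, [], h, _ => by simp [tgOK] at h
  | [], _ :: _, _ :: _, h, _ => by simp [tgOK] at h
  | _ :: _, [], [], h, _ => by simp [tgOK] at h
  | _ :: _, [], _ :: _, h, _ => by simp [tgOK] at h
  | _ :: _, _ :: _, [], h, _ => by simp [tgOK] at h

def zOK (L Ln : ℕ) (rows : List ℕ) : List ℕ → List ℕ → Bool
  | [], [] => true
  | z :: zs, c :: cs => okq L (comb 4 c rows) z && (sml Ln z && zOK L Ln rows zs cs)
  | _, _ => false

theorem zOK_append (L Ln : ℕ) (rows : List ℕ) : ∀ {z1 z2 c1 c2 : List ℕ},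
    zOK L Ln rows z1 c1 = true → zOK L Ln rows z2 c2 = true →
    zOK L Ln rows (z1 ++ z2) (c1 ++ c2) = true
  | [], _, [], _, _, h => h
  | z :: zs, _, c :: cs, _, h, h' => by
      simp only [zOK, Bool.and_eq_true, List.cons_append] at h ⊢
      exact ⟨h.1, h.2.1, zOK_append L Ln rows h.2.2 h'⟩
  | [], _, _ :: _, _, h, _ => by simp [zOK] at h
  | _ :: _, _, [], _, h, _ => by simp [zOK] at h

theorem zOK_ok (g : ℕ → K3) {W : List ℕ} {Ln k : ℕ} (hk : W.length = Ln + k) {rows : List ℕ}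
    (hrows : ∀ r ∈ rows, Bd 3 W.length r ∧ ev W r g = 0) (hn : 9 * rows.length + 3 < 65536) :
    ∀ {zs cs : List ℕ}, zOK W.length Ln rows zs cs = true →
    ∀ z ∈ zs, Bd 3 Ln z ∧ ev W z g = 0
  | [], [], _, z, hz => by simp at hz
  | z :: zs, c :: cs, h, z', hz' => by
      simp only [zOK, Bool.and_eq_true] at h
      rcases List.mem_cons.1 hz' with rfl | hz'
      · obtain ⟨Q, hQ, hA⟩ := okq_ok h.1
        have h1 := comb_lin g hrows c (by omega)
        have h2 := sml_ok h.2.1
        have h3 : Bd 3 W.length z' := by rw [hk]; exact h2.mono_len _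
        have := mod3 g (R := 0) h1.1 (Bd.zero _ _) h3 hQ (by omega) (by simpa using hA)
        rw [h1.2, ev_zero, add_zero] at this
        exact ⟨h2, this.symm⟩
      · exact zOK_ok g hk hrows hn h.2.2 z' hz'
  | [], _ :: _, h, _, _ => by simp [zOK] at h
  | _ :: _, [], h, _, _ => by simp [zOK] at h

/-- state after level `m` -/
structure St (f : List (Fin 5) → K3) (m : ℕ) (NNpp NNp : List ℕ) (T : Fin 5 → List ℕ)
    (Z : List ℕ) : Prop where
  len1 : ∀ e ∈ NNpp, (wd e).length + 1 ≤ m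
  len2 : ∀ e ∈ NNp, (wd e).length ≤ m
  tab : Tab f m NNp NNpp T
  zf : ZF f m NNp Z

def lt8 (B : ℕ) (l : List ℕ) : Bool := l.all (fun c => Nat.blt c B)

theorem step {f : List (Fin 5) → K3} (hf : RelF f) {m : ℕ} {NNpp Nt Nn X : List ℕ}
    {T : Fin 5 → List ℕ} {Z : List ℕ} (h : St f m NNpp (NNpp ++ Nt) T Z)
    (ps Rt Cs : Fin 5 → List ℕ) (sps : List Sp) (rows Z' Cz : List ℕ)
    (hL : (NNpp ++ Nt).length ≤ 238)
    (hlen : lt8 (8 ^ (m + 1)) Nn = true)
    (hpos : ∀ b : Fin 5, chkPos ((NNpp ++ Nt) ++ (Nn ++ X)) b.val Nt (ps b) = true)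
    (hrow : rowsOK ((NNpp ++ Nt) ++ (Nn ++ X)).length T (fun b => T b ++ upw (ps b)) Z sps rows = true)
    (hn : 9 * rows.length + 3 < 65536)
    (htg : ∀ b : Fin 5, tgOK ((NNpp ++ Nt) ++ (Nn ++ X)).length ((NNpp ++ Nt) ++ Nn).length rows
      (ps b) (Rt b) (Cs b) = true)
    (hz : zOK ((NNpp ++ Nt) ++ (Nn ++ X)).length ((NNpp ++ Nt) ++ Nn).length rows Z' Cz = true) :
    St f (m + 1) (NNpp ++ Nt) ((NNpp ++ Nt) ++ Nn) (fun b => T b ++ Rt b) Z' := by
  have hpos' : ∀ (b : Fin 5) (s : List (Fin 5)), List.Forall₂ (fun e p =>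
      Bd 1 ((NNpp ++ Nt) ++ (Nn ++ X)).length (65536 ^ p) ∧
      f (wd e ++ b :: s) = ev ((NNpp ++ Nt) ++ (Nn ++ X)) (65536 ^ p) (F f s)) Nt (ps b) :=
    fun b s => chkPos_ok f s (hpos b)
  have hP : Tab f (m + 1) ((NNpp ++ Nt) ++ (Nn ++ X)) (NNpp ++ Nt) (fun b => T b ++ upw (ps b)) := by
    intro b s hs
    refine forall₂_append ?_ (forall₂_upw ((hpos' b s).imp fun e p h => ⟨h.1.mono (by norm_num), h.2⟩))
    refine (h.tab b s (by omega)).imp fun e r h => ⟨?_, ?_⟩
    · rw [List.length_append]; exact h.1.mono_len _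
    · rw [ev_append _ _ h.1]; exact h.2
  have hrows := rowsOK_ok hf h.len1 h.tab hP h.zf hL hrow
  have hk : ((NNpp ++ Nt) ++ (Nn ++ X)).length = ((NNpp ++ Nt) ++ Nn).length + X.length := by
    simp only [List.length_append]; ring
  have hps : ∀ b : Fin 5, ∀ p ∈ ps b, Bd 1 ((NNpp ++ Nt) ++ (Nn ++ X)).length (65536 ^ p) := by
    intro b p hp
    have : ∀ {l1 l2 : List ℕ}, List.Forall₂ (fun e p =>
      Bd 1 ((NNpp ++ Nt) ++ (Nn ++ X)).length (65536 ^ p) ∧
      f (wd e ++ b :: []) = ev ((NNpp ++ Nt) ++ (Nn ++ X)) (65536 ^ p) (F f [])) l1 l2 →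
        ∀ p ∈ l2, Bd 1 ((NNpp ++ Nt) ++ (Nn ++ X)).length (65536 ^ p) := by
      intro l1 l2 hl
      induction hl with
      | nil => intro p hp; simp at hp
      | cons h _ ih =>
          intro p hp
          rcases List.mem_cons.1 hp with rfl | hp
          · exact h.1
          · exact ih p hp
    exact this (hpos' b []) p hp
  have hWW : ∀ (v : ℕ) (g : ℕ → K3), Bd 3 ((NNpp ++ Nt) ++ Nn).length v →
      ev ((NNpp ++ Nt) ++ (Nn ++ X)) v g = ev ((NNpp ++ Nt) ++ Nn) v g := by
    intro v g hv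
    rw [← List.append_assoc (NNpp ++ Nt) Nn X]
    exact ev_append g X hv
  refine ⟨fun e he => by have := h.len2 e he; omega, ?_, ?_, ?_⟩
  · intro e he
    rcases List.mem_append.1 he with he | he
    · exact (h.len2 e he).trans (by omega)
    · refine wd_length ?_
      have := List.all_eq_true.1 hlen e he
      simpa [Nat.blt] using this
  · intro b s hs
    refine forall₂_append ?_ ?_
    · refine (h.tab b s (by omega)).imp fun e r h => ⟨?_, ?_⟩
      · rw [List.length_append]; exact h.1.mono_len _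
      · rw [ev_append _ _ h.1]; exact h.2
    · have h2 := tgOK_ok (F f s) hk (hrows s hs) hn (htg b) (hps b)
      refine (forall₂_comp (hpos' b s) h2).imp fun e r h => ?_
      obtain ⟨p, h3, h4⟩ := h
      exact ⟨h4.1, by rw [h3.2, ← h4.2, hWW _ _ h4.1]⟩
  · intro z hz'
    have h3 : Bd 3 ((NNpp ++ Nt) ++ Nn).length z := by
      by_cases hm : m + 1 ≤ 7
      · exact (zOK_ok (F f []) hk (hrows [] (by simpa using hm)) hn hz z hz').1
      · have : ∀ {zs cs : List ℕ}, zOK ((NNpp ++ Nt) ++ (Nn ++ X)).length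
            ((NNpp ++ Nt) ++ Nn).length rows zs cs = true → z ∈ zs →
            Bd 3 ((NNpp ++ Nt) ++ Nn).length z := by
          intro zs
          induction zs with
          | nil => intro cs _ hz; simp at hz
          | cons a zs ih =>
              intro cs h hz
              cases cs with
              | nil => simp [zOK] at h
              | cons c cs =>
                  simp only [zOK, Bool.and_eq_true] at h
                  rcases List.mem_cons.1 hz with rfl | hz
                  · exact sml_ok h.2.1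
                  · exact ih h.2.2 hz
        exact this hz hz'
    refine ⟨h3, fun s hs => ?_⟩
    rw [← hWW _ _ h3]
    exact (zOK_ok (F f s) hk (hrows s hs) hn hz z hz').2

/-- from level `m + 1` to level `m` -/
theorem back {f : List (Fin 5) → K3} {m : ℕ} {N V : List ℕ} {T : Fin 5 → List ℕ} {Z : List ℕ}
    (h : St f (m + 1) N V T Z) (hm : m + 1 ≤ 7) (hNV : ∀ e ∈ N, e ∈ V)
    (hv : ∀ s : List (Fin 5), m + 1 + s.length ≤ 7 → ∀ e ∈ V, F f s e = 0) :
    ∀ s : List (Fin 5), m + s.length ≤ 7 → ∀ e ∈ N, F f s e = 0 := by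
  intro s hs e he
  cases s with
  | nil => exact hv [] (by simpa using hm) e (hNV e he)
  | cons b s =>
      have hs' : m + 1 + s.length ≤ 7 := by simp at hs; omega
      have := h.tab b s hs'
      have key : ∀ {l1 l2 : List ℕ}, List.Forall₂ (fun e r => Bd 3 V.length r ∧
          f (wd e ++ b :: s) = ev V r (F f s)) l1 l2 → ∀ e ∈ l1, f (wd e ++ b :: s) = 0 := by
        intro l1 l2 hl
        induction hl with
        | nil => intro e he; simp at he
        | cons h _ ih =>
            intro e he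
            rcases List.mem_cons.1 he with rfl | he
            · rw [h.2]; exact ev_vanish _ _ (hv s hs')
            · exact ih e he
      exact key this e he

end Pool.Agent.Zk45.SQ
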